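import Pool.Agent.CutLim.Defs

/-!
# CutR3, module C: the forward avoidance probabilities (helper10)

`fw k G i` is the probability that `i` is a renewal point and that no renewal point in `(0, i]` lies in `G`.
-/

set_option autoImplicit false

namespace CutR3

open Filter Topology Finset CutLim

open Classical in
/-- the probability that `i` is a renewal point and no renewal point in `(0, i]` lies in `G` -/
noncomputable def fw (k : ℕ → ℝ) (G : Set ℕ) : ℕ → ℝ
  | 0 => 1
  | i + 1 => if i + 1 ∈ G then 0 else ∑ j : Fin (i + 1), fw k G j * k (i + 1 - j)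
termination_by n => n
decreasing_by exact j.2

variable {u k : ℕ → ℝ}

theorem fw_zero (k : ℕ → ℝ) (G : Set ℕ) : fw k G 0 = 1 := by
  rw [fw]

open Classical in
theorem fw_pos (k : ℕ → ℝ) (G : Set ℕ) {i : ℕ} (hi : 0 < i) :
    fw k G i = if i ∈ G then 0 else ∑ j ∈ range i, fw k G j * k (i - j) := by
  obtain ⟨n, rfl⟩ := Nat.exists_eq_succ_of_ne_zero hi.ne'
  rw [Nat.succ_eq_add_one, fw, Finset.sum_range (fun j => fw k G j * k (n + 1 - j))]

theorem fw_mem (k : ℕ → ℝ) {G : Set ℕ} {i : ℕ} (hi : 0 < i) (h : i ∈ G) : fw k G i = 0 := by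
  rw [fw_pos k G hi, if_pos h]

theorem fw_not (k : ℕ → ℝ) {G : Set ℕ} {i : ℕ} (hi : 0 < i) (h : i ∉ G) :
    fw k G i = ∑ j ∈ range i, fw k G j * k (i - j) := by
  rw [fw_pos k G hi, if_neg h]

/-- the renewal equation as a sum over the last renewal point -/
theorem ren' (h : Ren u k) {n : ℕ} (hn : 0 < n) : u n = ∑ j ∈ range n, u j * k (n - j) := by
  rw [h.ren n hn]
  refine Finset.sum_bij' (fun r _ => n - r) (fun j _ => n - j) ?_ ?_ ?_ ?_ ?_
  · intro r hr
    have := Finset.mem_Icc.1 hr
    exact Finset.mem_range.2 (by omega)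
  · intro j hj
    have := Finset.mem_range.1 hj
    exact Finset.mem_Icc.2 (by omega)
  · intro r hr
    have := Finset.mem_Icc.1 hr
    show n - (n - r) = r
    omega
  · intro j hj
    have := Finset.mem_range.1 hj
    show n - (n - j) = j
    omega
  · intro r hr
    have := Finset.mem_Icc.1 hr
    show k r * u (n - r) = u (n - r) * k (n - (n - r))
    rw [show n - (n - r) = r by omega, mul_comm]

theorem fw_nonneg (h : Ren u k) (G : Set ℕ) (i : ℕ) : 0 ≤ fw k G i := by
  induction i using Nat.strong_induction_on with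
  | _ i ih =>
    rcases Nat.eq_zero_or_pos i with rfl | hi
    · rw [fw_zero]
      exact zero_le_one
    · by_cases hG : i ∈ G
      · rw [fw_mem k hi hG]
      · rw [fw_not k hi hG]
        exact Finset.sum_nonneg fun j hj => mul_nonneg (ih j (Finset.mem_range.1 hj)) (h.kn _)

theorem u_nonneg' (h : Ren u k) (i : ℕ) : 0 ≤ u i := by
  induction i using Nat.strong_induction_on with
  | _ i ih =>
    rcases Nat.eq_zero_or_pos i with rfl | hi
    · rw [h.u0]
      exact zero_le_one
    · rw [ren' h hi]
      exact Finset.sum_nonneg fun j hj => mul_nonneg (ih j (Finset.mem_range.1 hj)) (h.kn _)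

theorem fw_le (h : Ren u k) (G : Set ℕ) (i : ℕ) : fw k G i ≤ u i := by
  induction i using Nat.strong_induction_on with
  | _ i ih =>
    rcases Nat.eq_zero_or_pos i with rfl | hi
    · rw [fw_zero, h.u0]
    · by_cases hG : i ∈ G
      · rw [fw_mem k hi hG]
        exact u_nonneg' h i
      · rw [fw_not k hi hG, ren' h hi]
        exact Finset.sum_le_sum fun j hj => mul_le_mul_of_nonneg_right (ih j (Finset.mem_range.1 hj)) (h.kn _)

/-- the empty set: the renewal probabilities -/
theorem fw_empty (h : Ren u k) (i : ℕ) : fw k ∅ i = u i := by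
  induction i using Nat.strong_induction_on with
  | _ i ih =>
    rcases Nat.eq_zero_or_pos i with rfl | hi
    · rw [fw_zero, h.u0]
    · rw [fw_not k hi (Set.notMem_empty i), ren' h hi]
      exact Finset.sum_congr rfl fun j hj => by rw [ih j (Finset.mem_range.1 hj)]

/-- only the points up to `i` matter -/
theorem fw_congr (k : ℕ → ℝ) {G G' : Set ℕ} {i : ℕ} (hG : ∀ j, j ≤ i → (j ∈ G ↔ j ∈ G')) :
    fw k G i = fw k G' i := by
  induction i using Nat.strong_induction_on with
  | _ i ih =>
    rcases Nat.eq_zero_or_pos i with rfl | hi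
    · rw [fw_zero, fw_zero]
    · have h1 : ∑ j ∈ range i, fw k G j * k (i - j) = ∑ j ∈ range i, fw k G' j * k (i - j) :=
        Finset.sum_congr rfl fun j hj => by
          rw [ih j (Finset.mem_range.1 hj) fun l hl => hG l (hl.trans (Finset.mem_range.1 hj).le)]
      by_cases h : i ∈ G
      · rw [fw_mem k hi h, fw_mem k hi ((hG i le_rfl).1 h)]
      · rw [fw_not k hi h, fw_not k hi (fun h' => h ((hG i le_rfl).2 h')), h1]

/-- no point of `G` in `(y, i]`: decomposition with respect to the first renewal point in `(y, i]` -/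
theorem entrance (h : Ren u k) {G : Set ℕ} {y i : ℕ} (hyi : y < i) (hG : ∀ j, y < j → j ≤ i → j ∉ G) :
    fw k G i = ∑ m ∈ Ioc y i, (∑ j ∈ range (y + 1), fw k G j * k (m - j)) * u (i - m) := by
  induction i using Nat.strong_induction_on with
  | _ i ih =>
    have hi : 0 < i := by omega
    rw [fw_not k hi (hG i hyi le_rfl)]
    have h1 : range i = range (y + 1) ∪ Ioo y i := by
      ext j
      simp only [Finset.mem_range, Finset.mem_union, Finset.mem_Ioo]
      omega
    have h2 : Disjoint (range (y + 1)) (Ioo y i) := by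
      rw [Finset.disjoint_left]
      intro j hj hj'
      have := Finset.mem_range.1 hj
      have := Finset.mem_Ioo.1 hj'
      omega
    have h3 : Ioc y i = insert i (Ioo y i) := by
      ext j
      simp only [Finset.mem_insert, Finset.mem_Ioo, Finset.mem_Ioc]
      omega
    rw [h1, Finset.sum_union h2, h3, Finset.sum_insert (by simp), Nat.sub_self, h.u0, mul_one]
    congr 1
    have h4 : ∑ j ∈ Ioo y i, fw k G j * k (i - j) = ∑ j ∈ Ioo y i, ∑ m ∈ Ioc y j,
        (∑ l ∈ range (y + 1), fw k G l * k (m - l)) * u (j - m) * k (i - j) := by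
      refine Finset.sum_congr rfl fun j hj => ?_
      have hj' := Finset.mem_Ioo.1 hj
      rw [ih j hj'.2 hj'.1 fun l hl hl' => hG l hl (hl'.trans hj'.2.le), Finset.sum_mul]
    rw [h4, Finset.sum_comm' (t' := Ioo y i) (s' := fun m => Ico m i)]
    · refine Finset.sum_congr rfl fun m hm => ?_
      have hm' := Finset.mem_Ioo.1 hm
      have h5 : u (i - m) = ∑ j ∈ Ico m i, u (j - m) * k (i - j) := by
        rw [ren' h (show 0 < i - m by omega)]
        rw [Finset.sum_Ico_eq_sum_range]
        refine Finset.sum_congr rfl fun j hj => ?_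
        have := Finset.mem_range.1 hj
        rw [show m + j - m = j by omega, show i - (m + j) = i - m - j by omega]
      rw [h5, Finset.mul_sum]
      refine Finset.sum_congr rfl fun j _ => ?_
      rw [mul_assoc]
    · intro j m
      simp only [Finset.mem_Ioo, Finset.mem_Ioc, Finset.mem_Ico]
      omega

/-- adding the gap `(x, y]` to a set which has no point beyond `x` -/
theorem fw_step (h : Ren u k) {G G' : Set ℕ} {x y i : ℕ} (hxy : x ≤ y) (hyi : y < i)
    (hG : ∀ j, x < j → j ∉ G) (hG' : ∀ j, j ∈ G' ↔ j ∈ G ∨ (x < j ∧ j ≤ y)) :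
    fw k G' i = fw k G i - ∑ m ∈ Ioc x y, (∑ j ∈ range (x + 1), fw k G j * k (m - j)) * u (i - m) := by
  have hfw : ∀ j, j ≤ x → fw k G' j = fw k G j := fun j hj => fw_congr k fun l hl => by
    rw [hG']
    constructor
    · rintro (h1 | h1)
      · exact h1
      · omega
    · exact Or.inl
  have h1 : fw k G' i = ∑ m ∈ Ioc y i, (∑ j ∈ range (y + 1), fw k G' j * k (m - j)) * u (i - m) :=
    entrance h hyi fun j hj _ h' => by
      rcases (hG' j).1 h' with h2 | h2
      · exact hG j (by omega) h2
      · omega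
  have h2 : fw k G i = ∑ m ∈ Ioc x i, (∑ j ∈ range (x + 1), fw k G j * k (m - j)) * u (i - m) :=
    entrance h (by omega) fun j hj _ => hG j hj
  have h3 : ∀ m, ∑ j ∈ range (y + 1), fw k G' j * k (m - j) = ∑ j ∈ range (x + 1), fw k G j * k (m - j) := by
    intro m
    have h4 : range (x + 1) ⊆ range (y + 1) := Finset.range_subset_range.2 (by omega)
    rw [← Finset.sum_subset h4]
    · exact Finset.sum_congr rfl fun j hj => by rw [hfw j (by have := Finset.mem_range.1 hj; omega)]
    · intro j hj hj'
      have h5 := Finset.mem_range.1 hj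
      have h6 : x < j := by
        by_contra h7
        exact hj' (Finset.mem_range.2 (by omega))
      rw [fw_mem k (by omega) ((hG' j).2 (Or.inr ⟨h6, by omega⟩)), zero_mul]
  rw [h1, h2, ← Finset.sum_Ioc_consecutive _ hxy hyi.le, add_sub_cancel_left]
  exact Finset.sum_congr rfl fun m _ => by rw [h3]

open Classical in
theorem av_eq' (k : ℕ → ℝ) (G : Set ℕ) (n a : ℕ) :
    av k G n a = KK k (n + 1 - a) + ∑ j ∈ Ioc a n, k (j - a) * (if j ∈ G then 0 else av k G n j) := by
  rw [av, Finset.sum_attach (Ioc a n) (fun j => k (j - a) * (if j ∈ G then 0 else av k G n j))]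

/-- duality: the avoidance probability as a sum over the last renewal point -/
theorem av_fw (k : ℕ → ℝ) (G : Set ℕ) (n : ℕ) :
    av k G n 0 = ∑ j ∈ range (n + 1), fw k G j * KK k (n + 1 - j) := by
  classical
  set A : ℕ → ℝ := fun j => if j ∈ G then 0 else av k G n j with hA
  have h1 : ∀ j, ∑ i ∈ Ioc j n, k (i - j) * A i = av k G n j - KK k (n + 1 - j) := by
    intro j
    rw [av_eq' k G n j, add_sub_cancel_left]
  -- the double sum in two ways
  have h2 : ∑ i ∈ Ioc 0 n, fw k G i * A i = ∑ j ∈ range (n + 1), fw k G j * (av k G n j - KK k (n + 1 - j)) := by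
    have h3 : ∀ i ∈ Ioc 0 n, fw k G i * A i = ∑ j ∈ range i, fw k G j * k (i - j) * A i := by
      intro i hi
      have hi' := Finset.mem_Ioc.1 hi
      by_cases hG : i ∈ G
      · rw [hA]
        simp only [if_pos hG, mul_zero, Finset.sum_const_zero]
      · rw [fw_not k hi'.1 hG, Finset.sum_mul]
    rw [Finset.sum_congr rfl h3, Finset.sum_comm' (t' := range (n + 1)) (s' := fun j => Ioc j n)]
    · refine Finset.sum_congr rfl fun j _ => ?_
      rw [← h1 j, Finset.mul_sum]
      exact Finset.sum_congr rfl fun i _ => mul_assoc _ _ _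
    · intro i j
      simp only [Finset.mem_Ioc, Finset.mem_range]
      omega
  have h3 : ∑ i ∈ Ioc 0 n, fw k G i * A i = ∑ i ∈ Ioc 0 n, fw k G i * av k G n i := by
    refine Finset.sum_congr rfl fun i hi => ?_
    by_cases hG : i ∈ G
    · rw [fw_mem k (Finset.mem_Ioc.1 hi).1 hG, zero_mul, zero_mul]
    · rw [hA]
      simp only [if_neg hG]
  have h4 : ∑ j ∈ range (n + 1), fw k G j * av k G n j = av k G n 0 + ∑ i ∈ Ioc 0 n, fw k G i * av k G n i := by
    have h5 : range (n + 1) = insert 0 (Ioc 0 n) := by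
      ext j
      simp only [Finset.mem_insert, Finset.mem_Ioc, Finset.mem_range]
      omega
    rw [h5, Finset.sum_insert (by simp), fw_zero, one_mul]
  have h5 : ∑ j ∈ range (n + 1), fw k G j * (av k G n j - KK k (n + 1 - j)) =
      ∑ j ∈ range (n + 1), fw k G j * av k G n j - ∑ j ∈ range (n + 1), fw k G j * KK k (n + 1 - j) := by
    rw [← Finset.sum_sub_distrib]
    exact Finset.sum_congr rfl fun j _ => mul_sub _ _ _
  linarith

end CutR3
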