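import Pool.Agent.CutR3.E

/-!
# CutR3, module F: all finite unions of gaps (helper10)

`gp l T`: the integers of the gaps `(x T, y T]`, `(x, y) ∈ l`. `Ad l r`: the gaps are ordered, the head is the rightmost one,
`0 < x`, `y ≤ r`, touching gaps are allowed. `rho a b c l` is the limit of `T ^ (1 - a) * fw k (gp l T) i`, `i / T → s`.
-/

set_option autoImplicit false

namespace CutR3

open Filter Topology MeasureTheory CutLim

/-- ordered gaps below `r`, the head is the rightmost gap -/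
def Ad : List (ℝ × ℝ) → ℝ → Prop
  | [], r => 0 < r
  | p :: l, r => p.1 ≤ p.2 ∧ p.2 ≤ r ∧ Ad l p.1

/-- the integers of the scaled gaps -/
def gp (l : List (ℝ × ℝ)) (T : ℕ) : Set ℕ := {j | ∃ p ∈ l, p.1 * T < j ∧ (j : ℝ) ≤ p.2 * T}

/-- the limit density of the renewal points which avoid the gaps -/
noncomputable def rho (a b c : ℝ) : List (ℝ × ℝ) → ℝ → ℝ
  | [], s => b * s ^ (a - 1)
  | p :: l, s => if s ≤ p.1 then rho a b c l s else if s ≤ p.2 then 0 else
      rho a b c l s - ∫ r in (0:ℝ)..p.1, rho a b c l r * Dk (b * c) a r s p.1 p.2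

/-- the end points -/
def eps (l : List (ℝ × ℝ)) : Set ℝ := {s | ∃ p ∈ l, s = p.1 ∨ s = p.2}

theorem Ad.pos {l : List (ℝ × ℝ)} : ∀ {r : ℝ}, Ad l r → 0 < r := by
  induction l with
  | nil => exact fun h => h
  | cons p l ih => exact fun h => (ih h.2.2).trans_le (h.1.trans h.2.1)

theorem Ad.mono {l : List (ℝ × ℝ)} {r r' : ℝ} (h : Ad l r) (hr : r ≤ r') : Ad l r' := by
  cases l with
  | nil => exact lt_of_lt_of_le (show 0 < r from h) hr
  | cons p l => exact ⟨h.1, h.2.1.trans hr, h.2.2⟩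

theorem Ad.le {l : List (ℝ × ℝ)} : ∀ {r : ℝ}, Ad l r → ∀ p ∈ l, 0 < p.1 ∧ p.1 ≤ p.2 ∧ p.2 ≤ r := by
  induction l with
  | nil => exact fun _ p hp => absurd hp (List.not_mem_nil)
  | cons q l ih =>
    intro r h p hp
    rcases List.mem_cons.1 hp with rfl | hp
    · exact ⟨h.2.2.pos, h.1, h.2.1⟩
    · have h1 := ih h.2.2 p hp
      exact ⟨h1.1, h1.2.1, h1.2.2.trans (h.1.trans h.2.1)⟩

theorem eps_countable (l : List (ℝ × ℝ)) : (eps l).Countable := by
  have h : eps l ⊆ ((l.map Prod.fst ++ l.map Prod.snd).toFinset : Set ℝ) := by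
    rintro s ⟨p, hp, hs⟩
    simp only [List.toFinset_append, Finset.coe_union, Set.mem_union, Finset.mem_coe, List.mem_toFinset,
      List.mem_map]
    rcases hs with rfl | rfl
    · exact Or.inl ⟨p, hp, rfl⟩
    · exact Or.inr ⟨p, hp, rfl⟩
  exact (Finset.countable_toSet _).mono h

theorem gp_nil (T : ℕ) : gp [] T = ∅ := by
  ext j
  simp [gp]

theorem gp_cons {p : ℝ × ℝ} {l : List (ℝ × ℝ)} (h : 0 < p.1) (h' : p.1 ≤ p.2) (T j : ℕ) :
    j ∈ gp (p :: l) T ↔ j ∈ gp l T ∨ (⌊p.1 * (T : ℝ)⌋₊ < j ∧ j ≤ ⌊p.2 * (T : ℝ)⌋₊) := by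
  have hT : (0:ℝ) ≤ T := Nat.cast_nonneg T
  rw [Nat.floor_lt (mul_nonneg h.le hT), Nat.le_floor_iff (mul_nonneg (h.le.trans h') hT)]
  constructor
  · rintro ⟨q, hq, h1, h2⟩
    rcases List.mem_cons.1 hq with rfl | hq
    · exact Or.inr ⟨h1, h2⟩
    · exact Or.inl ⟨q, hq, h1, h2⟩
  · rintro (⟨q, hq, h1, h2⟩ | ⟨h1, h2⟩)
    · exact ⟨q, List.mem_cons_of_mem _ hq, h1, h2⟩
    · exact ⟨p, List.mem_cons_self, h1, h2⟩

theorem gp_le {l : List (ℝ × ℝ)} {r : ℝ} (h : Ad l r) (T j : ℕ) (hj : ⌊r * (T : ℝ)⌋₊ < j) : j ∉ gp l T := by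
  rintro ⟨p, hp, -, h2⟩
  have h3 := (h.le p hp).2.2
  have h4 : (j : ℝ) ≤ r * T := h2.trans (mul_le_mul_of_nonneg_right h3 (Nat.cast_nonneg T))
  rw [Nat.floor_lt (mul_nonneg h.pos.le (Nat.cast_nonneg T))] at hj
  linarith

variable {u k : ℕ → ℝ} {a b c : ℝ}

/-- the local limit: continuous convergence at all points which are not end points of the gaps -/
theorem local_lim (h : Ren u k) (ha : 0 < a) (ha1 : a < 1) (hc : 0 < c)
    (hu : Tendsto (fun n : ℕ => (n : ℝ) ^ (1 - a) * u n) atTop (𝓝 b))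
    (hk : Tendsto (fun n : ℕ => (n : ℝ) ^ a * KK k n) atTop (𝓝 c)) (l : List (ℝ × ℝ)) :
    ∀ r : ℝ, Ad l r → ∀ s : ℝ, 0 < s → s ∉ eps l →
      SC (fun T i => (T : ℝ) ^ (1 - a) * fw k (gp l T) i) s (rho a b c l s) := by
  induction l with
  | nil =>
    intro r _ s hs _ T i hT hi
    have h1 := SC_pow hs hu T i hT hi
    rw [neg_sub] at h1
    refine h1.congr fun n => ?_
    show _ = (T n : ℝ) ^ (1 - a) * fw k (gp [] (T n)) (i n)
    rw [gp_nil, fw_empty h]
  | cons p l ih =>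
    intro r hr s hs hse
    have hp := hr.le p List.mem_cons_self
    have hse' : s ∉ eps l := fun ⟨q, hq, h1⟩ => hse ⟨q, List.mem_cons_of_mem _ hq, h1⟩
    have hs1 : s ≠ p.1 := fun h1 => hse ⟨p, List.mem_cons_self, Or.inl h1⟩
    have hs2 : s ≠ p.2 := fun h1 => hse ⟨p, List.mem_cons_self, Or.inr h1⟩
    have ih' := ih p.1 hr.2.2
    rcases lt_or_gt_of_ne hs1 with h1 | h1
    · -- on the left of the gap
      intro T i hT hi
      have e : rho a b c (p :: l) s = rho a b c l s := by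
        rw [rho, if_pos h1.le]
      rw [e]
      refine (ih' s hs hse' T i hT hi).congr' ?_
      filter_upwards [hi.eventually_lt_const h1, hT.eventually_gt_atTop 0] with n hn hn'
      have hTn : (0:ℝ) < T n := by exact_mod_cast hn'
      have h2 : (i n : ℝ) < p.1 * T n := (div_lt_iff₀ hTn).1 hn
      rw [fw_congr k (G := gp l (T n)) (G' := gp (p :: l) (T n)) fun j hj => ?_]
      rw [gp_cons hp.1 hp.2.1]
      constructor
      · exact Or.inl
      · rintro (h3 | h3)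
        · exact h3
        · have h4 := (Nat.floor_lt (mul_nonneg hp.1.le hTn.le)).1 h3.1
          have h5 : (j : ℝ) ≤ i n := by exact_mod_cast hj
          linarith
    · rcases lt_or_gt_of_ne hs2 with h2 | h2
      · -- inside of the gap
        intro T i hT hi
        have e : rho a b c (p :: l) s = 0 := by
          rw [rho, if_neg (not_le.2 h1), if_pos h2.le]
        rw [e]
        refine tendsto_const_nhds.congr' ?_
        filter_upwards [hi.eventually_lt_const h2, hi.eventually_const_lt h1, hT.eventually_gt_atTop 0]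
          with n hn hn1 hn'
        have hTn : (0:ℝ) < T n := by exact_mod_cast hn'
        have h3 : (i n : ℝ) < p.2 * T n := (div_lt_iff₀ hTn).1 hn
        have h4 : p.1 * T n < i n := (lt_div_iff₀ hTn).1 hn1
        have h5 : 0 < i n := by
          have : (0:ℝ) < i n := lt_of_le_of_lt (mul_nonneg hp.1.le hTn.le) h4
          exact_mod_cast this
        have h6 : i n ∈ gp (p :: l) (T n) := ⟨p, List.mem_cons_self, h4, h3.le⟩
        rw [fw_mem k h5 h6, mul_zero]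
      · -- on the right of the gap
        have e : rho a b c (p :: l) s =
            rho a b c l s - ∫ r in (0:ℝ)..p.1, rho a b c l r * Dk (b * c) a r s p.1 p.2 := by
          rw [rho, if_neg (not_le.2 h1), if_neg (not_le.2 h2)]
        rw [e]
        exact step h ha ha1 hc hu hk hp.1 hp.2.1 (fun T j hj => gp_le hr.2.2 T j hj)
          (fun T j => gp_cons hp.1 hp.2.1 T j) (eps_countable l)
          (fun r hr0 _ hrE => ih' r hr0 hrE) h2 (ih' s hs hse')

/-- the sum over the last renewal point before `x T`, followed by a jump beyond `y T` -/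
theorem tail_lim (h : Ren u k) (ha : 0 < a) (ha1 : a < 1) (hc : 0 < c)
    (hu : Tendsto (fun n : ℕ => (n : ℝ) ^ (1 - a) * u n) atTop (𝓝 b))
    (hk : Tendsto (fun n : ℕ => (n : ℝ) ^ a * KK k n) atTop (𝓝 c)) {l : List (ℝ × ℝ)} {x y : ℝ} (hl : Ad l x)
    (hxy : x ≤ y) {T : ℕ → ℕ} (hT : Tendsto T atTop atTop) :
    Tendsto (fun n => ∑ j ∈ Finset.range (⌊x * (T n : ℝ)⌋₊ + 1), fw k (gp l (T n)) j *
      KK k (⌊y * (T n : ℝ)⌋₊ + 1 - j)) atTop (𝓝 (∫ r in (0:ℝ)..x, rho a b c l r * (c * (y - r) ^ (-a)))) := by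
  have hx := hl.pos
  have hy := hx.trans_le hxy
  obtain ⟨Cu, hCu0, hCu⟩ := u_bound h ha1 hu
  obtain ⟨Ck, hCk0, hCk⟩ := KK_bound hk
  have hTpos : ∀ᶠ n in atTop, 0 < T n := hT.eventually_gt_atTop 0
  have hTR : Tendsto (fun n => (T n : ℝ)) atTop atTop := tendsto_natCast_atTop_atTop.comp hT
  have hR := riemann (α := a) (x := x) (C := Cu * Ck) ha ha1 hx hT
    (F := fun n j => ((T n : ℝ) ^ (1 - a) * fw k (gp l (T n)) j) *
      ((T n : ℝ) ^ a * KK k (⌊y * (T n : ℝ)⌋₊ + 1 - j)))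
    (G := fun r => rho a b c l r * (c * (y - r) ^ (-a))) (by
      filter_upwards [hTpos] with n hn' j hj
      have hTn : (0:ℝ) < T n := by exact_mod_cast hn'
      have h1 := fw_scaled_le h hCu (gp l (T n)) hn' j
      have h1' : 0 ≤ (T n : ℝ) ^ (1 - a) * fw k (gp l (T n)) j :=
        mul_nonneg (Real.rpow_nonneg hTn.le _) (fw_nonneg h _ _)
      have hfl : ⌊x * (T n : ℝ)⌋₊ ≤ ⌊y * (T n : ℝ)⌋₊ :=
        Nat.floor_le_floor (mul_le_mul_of_nonneg_right hxy hTn.le)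
      have hj1 : 0 < ⌊x * (T n : ℝ)⌋₊ + 1 - j := by omega
      have hcast : ((⌊x * (T n : ℝ)⌋₊ + 1 - j : ℕ) : ℝ) = (⌊x * (T n : ℝ)⌋₊ : ℝ) + 1 - j := by
        rw [Nat.cast_sub (by omega)]
        push_cast
        ring
      have hpos : (0:ℝ) < (⌊x * (T n : ℝ)⌋₊ : ℝ) + 1 - j := by
        rw [← hcast]
        exact_mod_cast hj1
      have h2 : KK k (⌊y * (T n : ℝ)⌋₊ + 1 - j) ≤ Ck * ((⌊x * (T n : ℝ)⌋₊ : ℝ) + 1 - j) ^ (-a) := by
        have h3 := hCk _ hj1
        rw [hcast] at h3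
        exact (KK_anti' h (by omega)).trans h3
      have h2' := KK_nonneg' h (⌊y * (T n : ℝ)⌋₊ + 1 - j)
      have h2'' : 0 ≤ (T n : ℝ) ^ a * KK k (⌊y * (T n : ℝ)⌋₊ + 1 - j) :=
        mul_nonneg (Real.rpow_nonneg hTn.le _) h2'
      rw [abs_of_nonneg (mul_nonneg h1' h2'')]
      have h3 : (T n : ℝ) ^ a * (Ck * ((⌊x * (T n : ℝ)⌋₊ : ℝ) + 1 - j) ^ (-a)) =
          Ck * ((((⌊x * (T n : ℝ)⌋₊ : ℝ) + 1 - j) / T n) ^ (-a)) := by
        rw [Real.div_rpow hpos.le hTn.le, Real.rpow_neg hTn.le]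
        have := (Real.rpow_pos_of_pos hTn a).ne'
        field_simp
      calc ((T n : ℝ) ^ (1 - a) * fw k (gp l (T n)) j) * ((T n : ℝ) ^ a * KK k (⌊y * (T n : ℝ)⌋₊ + 1 - j))
          ≤ (Cu * (((j : ℝ) + 1) / T n) ^ (a - 1)) *
            (Ck * ((((⌊x * (T n : ℝ)⌋₊ : ℝ) + 1 - j) / T n) ^ (-a))) := by
            refine mul_le_mul h1 ?_ h2'' (mul_nonneg hCu0.le (Real.rpow_nonneg (by positivity) _))
            rw [← h3]
            exact mul_le_mul_of_nonneg_left h2 (Real.rpow_nonneg hTn.le _)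
        _ = _ := by ring) (by
      have hEm : ∀ᵐ r : ℝ ∂(volume.restrict (Set.Ioo 0 x)), r ∉ eps l := by
        refine ae_restrict_of_ae ?_
        rw [ae_iff]
        simp only [not_not]
        exact (eps_countable l).measure_zero _
      filter_upwards [hEm, ae_restrict_mem measurableSet_Ioo] with r hrE hr
      have hj : Tendsto (fun n => (⌊r * T n⌋₊ : ℝ) / T n) atTop (𝓝 r) :=
        (tendsto_nat_floor_mul_div_atTop (R := ℝ) hr.1.le).comp hTR
      have hyl : Tendsto (fun n => (⌊y * (T n : ℝ)⌋₊ : ℝ) / T n) atTop (𝓝 y) :=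
        (tendsto_nat_floor_mul_div_atTop (R := ℝ) hy.le).comp hTR
      refine (local_lim h ha ha1 hc hu hk l x hl r hr.1 hrE T _ hT hj).mul ?_
      exact SC_pow (by linarith [hr.2]) hk T _ hT (tendsto_tsub_add (by linarith [hr.2]) hT hyl hj))
  refine hR.congr' ?_
  filter_upwards [hTpos] with n hn'
  have hTn : (0:ℝ) < T n := by exact_mod_cast hn'
  rw [Finset.mul_sum]
  refine Finset.sum_congr rfl fun j _ => ?_
  have e1 : (T n : ℝ) ^ a * (T n : ℝ) ^ (1 - a) = T n := by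
    rw [← Real.rpow_add hTn, show a + (1 - a) = 1 by ring, Real.rpow_one]
  calc (T n : ℝ)⁻¹ * (((T n : ℝ) ^ (1 - a) * fw k (gp l (T n)) j) * ((T n : ℝ) ^ a * KK k (⌊y * (T n : ℝ)⌋₊ + 1 - j)))
      = ((T n : ℝ)⁻¹ * ((T n : ℝ) ^ a * (T n : ℝ) ^ (1 - a))) *
        (fw k (gp l (T n)) j * KK k (⌊y * (T n : ℝ)⌋₊ + 1 - j)) := by ring
    _ = _ := by rw [e1, inv_mul_cancel₀ hTn.ne', one_mul]

/-- the half-plane version: no renewal point in `(0, t T]` lies in a gap -/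
theorem global_lim (h : Ren u k) (ha : 0 < a) (ha1 : a < 1) (hc : 0 < c)
    (hu : Tendsto (fun n : ℕ => (n : ℝ) ^ (1 - a) * u n) atTop (𝓝 b))
    (hk : Tendsto (fun n : ℕ => (n : ℝ) ^ a * KK k n) atTop (𝓝 c)) {l : List (ℝ × ℝ)} {t : ℝ} (hl : Ad l t) :
    Tendsto (fun T : ℕ => av k (gp l T) ⌊t * (T : ℝ)⌋₊ 0) atTop
      (𝓝 (∫ r in (0:ℝ)..t, rho a b c l r * (c * (t - r) ^ (-a)))) := by
  have h1 := tail_lim h ha ha1 hc hu hk hl le_rfl tendsto_id
  refine h1.congr fun T => ?_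
  rw [av_fw]
  rfl

theorem global_lim_one (h : Ren u k) (ha : 0 < a) (ha1 : a < 1) (hc : 0 < c)
    (hu : Tendsto (fun n : ℕ => (n : ℝ) ^ (1 - a) * u n) atTop (𝓝 b))
    (hk : Tendsto (fun n : ℕ => (n : ℝ) ^ a * KK k n) atTop (𝓝 c)) {l : List (ℝ × ℝ)} (hl : Ad l 1) :
    Tendsto (fun T : ℕ => av k (gp l T) T 0) atTop (𝓝 (∫ r in (0:ℝ)..1, rho a b c l r * (c * (1 - r) ^ (-a)))) := by
  refine (global_lim h ha ha1 hc hu hk hl).congr fun T => ?_
  rw [one_mul, Nat.floor_natCast]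

/-- the bridge version: `T` is a renewal point and no renewal point lies in a gap -/
theorem bridge_lim (h : Ren u k) (ha : 0 < a) (ha1 : a < 1) (hb : 0 < b) (hc : 0 < c)
    (hu : Tendsto (fun n : ℕ => (n : ℝ) ^ (1 - a) * u n) atTop (𝓝 b))
    (hk : Tendsto (fun n : ℕ => (n : ℝ) ^ a * KK k n) atTop (𝓝 c)) {l : List (ℝ × ℝ)} {r : ℝ} (hl : Ad l r)
    (hr : r < 1) :
    Tendsto (fun T : ℕ => fw k (gp l T) T / u T) atTop (𝓝 (rho a b c l 1 / b)) := by
  have h0 : (1:ℝ) ∉ eps l := by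
    rintro ⟨p, hp, h1⟩
    have h2 := hl.le p hp
    rcases h1 with h1 | h1 <;> linarith [h2.1, h2.2.1, h2.2.2]
  have h1 := local_lim h ha ha1 hc hu hk l r hl 1 one_pos h0 id id tendsto_id (by
    refine tendsto_const_nhds.congr' ?_
    filter_upwards [eventually_gt_atTop 0] with n hn
    have hn' : (n : ℝ) ≠ 0 := by exact_mod_cast hn.ne'
    show (1:ℝ) = (n : ℝ) / n
    rw [div_self hn'])
  have h2 := h1.div hu hb.ne'
  refine h2.congr' ?_
  filter_upwards [eventually_gt_atTop 0] with n hn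
  have hn' : (0 : ℝ) < n := by exact_mod_cast hn
  show ((n : ℝ) ^ (1 - a) * fw k (gp l n) n) / ((n : ℝ) ^ (1 - a) * u n) = _
  rw [mul_div_mul_left _ _ (Real.rpow_pos_of_pos hn' _).ne']

end CutR3
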