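import Mathlib

/-!
# CutR3, module A: Riemann sums with an integrable majorant (helper10)

Library for the joint gap probabilities of renewal sequences.
-/

namespace CutR3

open Filter Topology MeasureTheory Set

/-- The sum over `j < X` as an integral. -/
theorem sum_eq_integral {t : ℝ} (ht : 0 < t) (F : ℕ → ℝ) (X : ℕ) :
    t⁻¹ * ∑ j ∈ Finset.range X, F j = ∫ r in (0:ℝ)..(X / t), F ⌊r * t⌋₊ := by
  have key : ∀ j : ℕ, (∀ r ∈ Ioo ((j:ℝ) / t) (((j + 1 : ℕ) : ℝ) / t), F ⌊r * t⌋₊ = F j) := by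
    intro j r hr
    have h1 : (j:ℝ) < r * t := (div_lt_iff₀ ht).1 hr.1
    have h2 : r * t < (j:ℝ) + 1 := by
      have := (lt_div_iff₀ ht).1 hr.2
      push_cast at this
      exact this
    have h3 : ⌊r * t⌋₊ = j := (Nat.floor_eq_iff (le_trans (Nat.cast_nonneg j) h1.le)).2 ⟨h1.le, h2⟩
    rw [h3]
  have hint : ∀ j : ℕ, IntervalIntegrable (fun r => F ⌊r * t⌋₊) volume ((j:ℝ) / t) (((j + 1 : ℕ) : ℝ) / t) := by
    intro j
    have hle : (j:ℝ) / t ≤ ((j + 1 : ℕ) : ℝ) / t := by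
      apply div_le_div_of_nonneg_right _ ht.le
      push_cast
      linarith
    rw [intervalIntegrable_iff_integrableOn_Ioo_of_le hle]
    refine IntegrableOn.congr_fun (f := fun _ => F j) ?_ (fun r hr => (key j r hr).symm) measurableSet_Ioo
    exact integrableOn_const (by simp)
  have hval : ∀ j : ℕ, ∫ r in ((j:ℝ) / t)..(((j + 1 : ℕ) : ℝ) / t), F ⌊r * t⌋₊ = t⁻¹ * F j := by
    intro j
    have hle : (j:ℝ) / t ≤ ((j + 1 : ℕ) : ℝ) / t := by
      apply div_le_div_of_nonneg_right _ ht.le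
      push_cast
      linarith
    have h1 : ∫ r in ((j:ℝ) / t)..(((j + 1 : ℕ) : ℝ) / t), F ⌊r * t⌋₊ =
        ∫ r in ((j:ℝ) / t)..(((j + 1 : ℕ) : ℝ) / t), F j := by
      rw [intervalIntegral.integral_of_le hle, intervalIntegral.integral_of_le hle,
        integral_Ioc_eq_integral_Ioo, integral_Ioc_eq_integral_Ioo]
      exact setIntegral_congr_fun measurableSet_Ioo (key j)
    rw [h1, intervalIntegral.integral_const, smul_eq_mul]
    push_cast
    field_simp
    ring
  have h := intervalIntegral.sum_integral_adjacent_intervals (f := fun r => F ⌊r * t⌋₊) (μ := volume)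
    (a := fun j : ℕ => (j:ℝ) / t) (n := X) (fun k _ => hint k)
  simp only [Nat.cast_zero, zero_div] at h
  rw [← h, Finset.mul_sum]
  exact Finset.sum_congr rfl fun j _ => (hval j).symm

/-- the majorant -/
theorem maj_integrable {α x : ℝ} (hα : 0 < α) (hα1 : α < 1) (hx : 0 < x) :
    IntegrableOn (fun r : ℝ => r ^ (α - 1) * (x - r) ^ (-α)) (Ioo 0 x) := by
  have h1 : IntegrableOn (fun r : ℝ => r ^ (α - 1)) (Ioo 0 (x / 2)) := by
    have := (intervalIntegral.intervalIntegrable_rpow' (a := 0) (b := x / 2) (r := α - 1) (by linarith))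
    rw [intervalIntegrable_iff_integrableOn_Ioo_of_le (by linarith)] at this
    exact this
  have h2 : IntegrableOn (fun r : ℝ => (x - r) ^ (-α)) (Ioo (x / 2) x) := by
    have h3 := (intervalIntegral.intervalIntegrable_rpow' (a := 0) (b := x / 2) (r := -α) (by linarith))
    have h4 := h3.comp_sub_left x
    rw [sub_zero, show x - x / 2 = x / 2 by ring] at h4
    have h5 := h4.symm
    rw [intervalIntegrable_iff_integrableOn_Ioo_of_le (by linarith)] at h5
    exact h5
  have hm : Measurable (fun r : ℝ => r ^ (α - 1) * (x - r) ^ (-α)) := by fun_prop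
  have h3 : IntegrableOn (fun r : ℝ => r ^ (α - 1) * (x - r) ^ (-α)) (Ioo 0 (x / 2)) := by
    refine Integrable.mono' (h1.mul_const ((x / 2) ^ (-α))) hm.aestronglyMeasurable ?_
    refine (ae_restrict_iff' measurableSet_Ioo).2 (ae_of_all _ fun r hr => ?_)
    have hr1 : 0 ≤ r ^ (α - 1) := Real.rpow_nonneg hr.1.le _
    have hr2 : 0 < x - r := by linarith [hr.2]
    rw [Real.norm_of_nonneg (mul_nonneg hr1 (Real.rpow_nonneg hr2.le _))]
    refine mul_le_mul_of_nonneg_left ?_ hr1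
    exact Real.rpow_le_rpow_of_nonpos (by linarith) (by linarith [hr.2]) (by linarith)
  have h4 : IntegrableOn (fun r : ℝ => r ^ (α - 1) * (x - r) ^ (-α)) (Ioo (x / 2) x) := by
    refine Integrable.mono' (h2.const_mul ((x / 2) ^ (α - 1))) hm.aestronglyMeasurable ?_
    refine (ae_restrict_iff' measurableSet_Ioo).2 (ae_of_all _ fun r hr => ?_)
    have hr0 : 0 < r := by linarith [hr.1]
    have hr1 : 0 ≤ r ^ (α - 1) := Real.rpow_nonneg hr0.le _
    have hr2 : 0 < x - r := by linarith [hr.2]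
    rw [Real.norm_of_nonneg (mul_nonneg hr1 (Real.rpow_nonneg hr2.le _))]
    refine mul_le_mul_of_nonneg_right ?_ (Real.rpow_nonneg hr2.le _)
    exact Real.rpow_le_rpow_of_nonpos (by linarith) (by linarith [hr.1]) (by linarith)
  refine (((integrableOn_Ioc_iff_integrableOn_Ioo enorm_ne_top).2 h3).union h4).mono_set ?_
  intro r hr
  rcases le_or_gt r (x / 2) with h | h
  · exact Or.inl ⟨hr.1, h⟩
  · exact Or.inr ⟨h, hr.2⟩

/-- Riemann sums with the majorant `C r^(α-1) (x-r)^(-α)`. -/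
theorem riemann {α x C : ℝ} (hα : 0 < α) (hα1 : α < 1) (hx : 0 < x) {T : ℕ → ℕ}
    (hT : Tendsto T atTop atTop) {F : ℕ → ℕ → ℝ} {G : ℝ → ℝ}
    (hF' : ∀ᶠ n in atTop, ∀ j, j ≤ ⌊x * T n⌋₊ → |F n j| ≤ C * (((j:ℝ) + 1) / T n) ^ (α - 1) *
      (((⌊x * T n⌋₊ : ℝ) + 1 - j) / T n) ^ (-α))
    (hG : ∀ᵐ r : ℝ ∂(volume.restrict (Ioo 0 x)), Tendsto (fun n => F n ⌊r * T n⌋₊) atTop (𝓝 (G r))) :
    Tendsto (fun n => (T n : ℝ)⁻¹ * ∑ j ∈ Finset.range (⌊x * T n⌋₊ + 1), F n j) atTop
      (𝓝 (∫ r in (0:ℝ)..x, G r)) := by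
  have hTR : Tendsto (fun n => (T n : ℝ)) atTop atTop := tendsto_natCast_atTop_atTop.comp hT
  have hTpos' : ∀ᶠ n in atTop, 0 < T n := hT.eventually_gt_atTop 0
  have hTpos := hTpos'.and hF'
  have hC : 0 ≤ C := by
    obtain ⟨n, hn, hF⟩ := hTpos.exists
    have h1 := (abs_nonneg _).trans (hF 0 (Nat.zero_le _))
    have hn' : (0:ℝ) < T n := by exact_mod_cast hn
    have h2 : 0 < ((((0:ℕ):ℝ) + 1) / T n) ^ (α - 1) := by positivity
    have h3 : 0 < (((⌊x * T n⌋₊ : ℝ) + 1 - (0:ℕ)) / T n) ^ (-α) := by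
      refine Real.rpow_pos_of_pos (div_pos ?_ hn') _
      have : (0:ℝ) ≤ (⌊x * T n⌋₊ : ℝ) := Nat.cast_nonneg _
      push_cast
      linarith
    rw [mul_assoc] at h1
    by_contra h4
    rw [not_le] at h4
    have := mul_neg_of_neg_of_pos h4 (mul_pos h2 h3)
    linarith
  -- floor asymptotics
  have hfl : Tendsto (fun n => (⌊x * T n⌋₊ : ℝ) / T n) atTop (𝓝 x) := by
    have h1 := (tendsto_nat_floor_mul_div_atTop (R := ℝ) hx.le).comp hTR
    exact h1
  -- the last term
  have hlast : Tendsto (fun n => (T n : ℝ)⁻¹ * F n ⌊x * T n⌋₊) atTop (𝓝 0) := by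
    have h1 : Tendsto (fun n => C * (((⌊x * T n⌋₊:ℝ) + 1) / T n) ^ (α - 1) * (T n : ℝ) ^ (α - 1)) atTop (𝓝 0) := by
      have h2 : Tendsto (fun n => ((⌊x * T n⌋₊:ℝ) + 1) / T n) atTop (𝓝 x) := by
        have h3 : Tendsto (fun n => (⌊x * T n⌋₊ : ℝ) / T n + (T n : ℝ)⁻¹) atTop (𝓝 (x + 0)) :=
          hfl.add (tendsto_inv_atTop_zero.comp hTR)
        rw [add_zero] at h3
        refine h3.congr fun n => ?_
        rw [add_div, one_div]
      have h3 : Tendsto (fun n => (T n : ℝ) ^ (α - 1)) atTop (𝓝 0) := by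
        have := (tendsto_rpow_neg_atTop (y := 1 - α) (by linarith)).comp hTR
        refine this.congr fun n => ?_
        show (T n : ℝ) ^ (-(1 - α)) = _
        rw [neg_sub]
      have h4 : Tendsto (fun n => (((⌊x * T n⌋₊:ℝ) + 1) / T n) ^ (α - 1)) atTop (𝓝 (x ^ (α - 1))) :=
        h2.rpow_const (Or.inl hx.ne')
      have h5 := (h4.const_mul C).mul h3
      rwa [mul_zero] at h5
    refine squeeze_zero_norm' ?_ h1
    filter_upwards [hTpos] with n hnF
    obtain ⟨hn, hF⟩ := hnF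
    have hn' : (0:ℝ) < T n := by exact_mod_cast hn
    rw [norm_mul, Real.norm_eq_abs, Real.norm_eq_abs, abs_of_pos (inv_pos.2 hn')]
    have h2 := hF _ le_rfl
    have h3 : ((⌊x * T n⌋₊ : ℝ) + 1 - (⌊x * T n⌋₊ : ℝ)) / T n = (T n : ℝ)⁻¹ := by
      rw [add_sub_cancel_left, one_div]
    rw [h3] at h2
    calc (T n : ℝ)⁻¹ * |F n ⌊x * T n⌋₊| ≤ (T n : ℝ)⁻¹ *
          (C * (((⌊x * T n⌋₊:ℝ) + 1) / T n) ^ (α - 1) * ((T n : ℝ)⁻¹) ^ (-α)) :=
          mul_le_mul_of_nonneg_left h2 (inv_nonneg.2 hn'.le)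
      _ = C * (((⌊x * T n⌋₊:ℝ) + 1) / T n) ^ (α - 1) * (T n : ℝ) ^ (α - 1) := by
          rw [Real.inv_rpow hn'.le, ← Real.rpow_neg hn'.le, neg_neg, Real.rpow_sub_one hn'.ne']
          field_simp
  -- the main part
  have hmain : Tendsto (fun n => (T n : ℝ)⁻¹ * ∑ j ∈ Finset.range ⌊x * T n⌋₊, F n j) atTop
      (𝓝 (∫ r in (0:ℝ)..x, G r)) := by
    have h1 : ∀ n, 0 < T n → (T n : ℝ)⁻¹ * ∑ j ∈ Finset.range ⌊x * T n⌋₊, F n j =
        ∫ r in Ioo 0 x, (Iio ((⌊x * T n⌋₊ : ℝ) / T n)).indicator (fun r => F n ⌊r * T n⌋₊) r := by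
      intro n hn
      have hn' : (0:ℝ) < T n := by exact_mod_cast hn
      rw [sum_eq_integral hn', setIntegral_indicator measurableSet_Iio]
      have h2 : (⌊x * T n⌋₊ : ℝ) / T n ≤ x := by
        rw [div_le_iff₀ hn']
        exact Nat.floor_le (by positivity)
      have h3 : Ioo 0 x ∩ Iio ((⌊x * T n⌋₊ : ℝ) / T n) = Ioo 0 ((⌊x * T n⌋₊ : ℝ) / T n) := by
        ext r
        simp only [mem_inter_iff, mem_Ioo, mem_Iio]
        constructor
        · rintro ⟨⟨h4, _⟩, h5⟩
          exact ⟨h4, h5⟩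
        · rintro ⟨h4, h5⟩
          exact ⟨⟨h4, h5.trans_le h2⟩, h5⟩
      rw [h3, intervalIntegral.integral_of_le (by positivity), integral_Ioc_eq_integral_Ioo]
    have h2 : Tendsto (fun n => ∫ r in Ioo 0 x,
        (Iio ((⌊x * T n⌋₊ : ℝ) / T n)).indicator (fun r => F n ⌊r * T n⌋₊) r) atTop
        (𝓝 (∫ r in Ioo 0 x, G r)) := by
      refine tendsto_integral_filter_of_dominated_convergence
        (fun r => C * (r ^ (α - 1) * (x - r) ^ (-α))) ?_ ?_ ((maj_integrable hα hα1 hx).const_mul C) ?_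
      · refine Eventually.of_forall fun n => ?_
        refine AEStronglyMeasurable.indicator ?_ measurableSet_Iio
        have hmf : Measurable (fun r : ℝ => ⌊r * T n⌋₊) := Nat.measurable_floor.comp (measurable_id.mul_const _)
        exact ((measurable_of_countable (F n)).comp hmf).aestronglyMeasurable
      · filter_upwards [hTpos] with n hnF
        obtain ⟨hn, hF⟩ := hnF
        have hn' : (0:ℝ) < T n := by exact_mod_cast hn
        refine (ae_restrict_iff' measurableSet_Ioo).2 (ae_of_all _ fun r hr => ?_)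
        have hb : 0 ≤ C * (r ^ (α - 1) * (x - r) ^ (-α)) := mul_nonneg hC (mul_nonneg
          (Real.rpow_nonneg hr.1.le _) (Real.rpow_nonneg (by linarith [hr.2]) _))
        by_cases h3 : r ∈ Iio ((⌊x * T n⌋₊ : ℝ) / T n)
        · rw [indicator_of_mem h3, Real.norm_eq_abs]
          have h4 : r * T n < ⌊x * T n⌋₊ := (lt_div_iff₀ hn').1 h3
          have h5 : ⌊r * T n⌋₊ ≤ ⌊x * T n⌋₊ := by
            apply Nat.floor_le_floor
            exact mul_le_mul_of_nonneg_right hr.2.le hn'.le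
          refine (hF _ h5).trans ?_
          rw [mul_assoc]
          refine mul_le_mul_of_nonneg_left ?_ hC
          have h6 : r ≤ ((⌊r * T n⌋₊ : ℝ) + 1) / T n := by
            rw [le_div_iff₀ hn']
            exact (Nat.lt_floor_add_one _).le
          have h7 : x - r ≤ ((⌊x * T n⌋₊ : ℝ) + 1 - (⌊r * T n⌋₊ : ℝ)) / T n := by
            rw [le_div_iff₀ hn']
            have h8 := Nat.lt_floor_add_one (x * T n)
            have h9 : (⌊r * T n⌋₊ : ℝ) ≤ r * T n := Nat.floor_le (mul_nonneg hr.1.le hn'.le)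
            nlinarith
          exact mul_le_mul (Real.rpow_le_rpow_of_nonpos hr.1 h6 (by linarith))
            (Real.rpow_le_rpow_of_nonpos (by linarith [hr.2]) h7 (by linarith))
            (Real.rpow_nonneg ((by linarith [hr.2] : (0:ℝ) ≤ x - r).trans h7) _)
            (Real.rpow_nonneg hr.1.le _)
        · rw [indicator_of_notMem h3, norm_zero]
          exact hb
      · filter_upwards [hG, ae_restrict_mem measurableSet_Ioo] with r hr hr'
        refine hr.congr' ?_
        have h3 : ∀ᶠ n in atTop, r < (⌊x * T n⌋₊ : ℝ) / T n := hfl.eventually_const_lt hr'.2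
        filter_upwards [h3] with n hn
        rw [indicator_of_mem (mem_Iio.2 hn)]
    rw [intervalIntegral.integral_of_le hx.le, integral_Ioc_eq_integral_Ioo]
    refine h2.congr' ?_
    filter_upwards [hTpos'] with n hn
    exact (h1 n hn).symm
  have h := hmain.add hlast
  rw [add_zero] at h
  refine h.congr fun n => ?_
  rw [Finset.sum_range_succ, mul_add]

end CutR3
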