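import Pool.Agent.CutR3.A

/-!
# CutR3, module B: a Stieltjes lemma (helper10)

Nonnegative weights `w` whose partial sums converge to `Γ z - Γ x`, and values `φ` which are uniformly close to a continuous
function `φ0`: the sums `∑ w φ` converge to `Φ y - Φ x`, where `Φ z' - Φ z = φ0 ξ (Γ z' - Γ z)` (mean value form of
`dΦ = φ0 dΓ`).
-/

namespace CutR3

open Filter Topology MeasureTheory Set

theorem stieltjes {x y : ℝ} (hxy : x ≤ y) (hx : 0 ≤ x) {T : ℕ → ℕ} (hT : Tendsto T atTop atTop)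
    {w φ : ℕ → ℕ → ℝ} {Γ Φ φ0 : ℝ → ℝ} (hw : ∀ n m, 0 ≤ w n m)
    (hΓ : ∀ z ∈ Icc x y, Tendsto (fun n => ∑ m ∈ Finset.Ioc ⌊x * T n⌋₊ ⌊z * T n⌋₊, w n m) atTop (𝓝 (Γ z - Γ x)))
    (hφ : ContinuousOn φ0 (Icc x y))
    (hu : ∀ ε : ℝ, 0 < ε → ∀ᶠ n in atTop, ∀ m ∈ Finset.Ioc ⌊x * T n⌋₊ ⌊y * T n⌋₊, |φ n m - φ0 (m / T n)| ≤ ε)
    (hΦ : ∀ z ∈ Icc x y, ∀ z' ∈ Icc x y, z ≤ z' → ∃ ξ ∈ Icc z z', Φ z' - Φ z = φ0 ξ * (Γ z' - Γ z)) :
    Tendsto (fun n => ∑ m ∈ Finset.Ioc ⌊x * T n⌋₊ ⌊y * T n⌋₊, w n m * φ n m) atTop (𝓝 (Φ y - Φ x)) := by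
  have hTpos : ∀ᶠ n in atTop, 0 < T n := hT.eventually_gt_atTop 0
  have hx' : x ∈ Icc x y := ⟨le_rfl, hxy⟩
  have hy' : y ∈ Icc x y := ⟨hxy, le_rfl⟩
  -- total mass
  set M : ℝ := Γ y - Γ x + 1 with hM
  have hMass : ∀ᶠ n in atTop, ∑ m ∈ Finset.Ioc ⌊x * T n⌋₊ ⌊y * T n⌋₊, w n m ≤ M := by
    have := (hΓ y hy').eventually_le_const (show Γ y - Γ x < M by rw [hM]; linarith)
    exact this
  have hM0 : 0 < M := by
    have h1 : 0 ≤ Γ y - Γ x := ge_of_tendsto' (hΓ y hy') fun n => Finset.sum_nonneg fun m _ => hw n m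
    rw [hM]
    linarith
  rw [Metric.tendsto_atTop']
  intro ε hε
  -- the mesh
  set η : ℝ := ε / (4 * M) with hη
  have hη0 : 0 < η := by positivity
  have huc := isCompact_Icc.uniformContinuousOn_of_continuous hφ
  rw [Metric.uniformContinuousOn_iff_le] at huc
  obtain ⟨δ, hδ, hδ'⟩ := huc η hη0
  obtain ⟨N, hN⟩ := exists_nat_gt ((y - x) / δ)
  have hN0 : (0:ℝ) < N := lt_of_le_of_lt (div_nonneg (by linarith) hδ.le) hN
  have hNpos : 0 < N := by exact_mod_cast hN0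
  set h : ℝ := (y - x) / N with hh
  have hh0 : 0 ≤ h := div_nonneg (by linarith) hN0.le
  have hhδ : h ≤ δ := by
    rw [hh, div_le_iff₀ hN0]
    rw [div_lt_iff₀ hδ] at hN
    linarith
  set z : ℕ → ℝ := fun l => x + l * h with hz
  have hz0 : z 0 = x := by simp [hz]
  have hzN : z N = y := by
    simp only [hz, hh]
    field_simp
    ring
  have hzs : ∀ l, z (l + 1) = z l + h := by
    intro l
    simp only [hz]
    push_cast
    ring
  have hzmono : Monotone z := monotone_nat_of_le_succ fun l => by rw [hzs]; linarith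
  have hzmem : ∀ l, l ≤ N → z l ∈ Icc x y := by
    intro l hl
    rw [← hz0, ← hzN]
    exact ⟨hzmono (Nat.zero_le _), hzmono hl⟩
  have hex : ∀ l, ∃ ξ, l < N → ξ ∈ Icc (z l) (z (l + 1)) ∧
      Φ (z (l + 1)) - Φ (z l) = φ0 ξ * (Γ (z (l + 1)) - Γ (z l)) := by
    intro l
    by_cases hl : l < N
    · obtain ⟨ξ, h1, h2⟩ := hΦ (z l) (hzmem l hl.le) (z (l + 1)) (hzmem _ hl) (hzmono (Nat.le_succ l))
      exact ⟨ξ, fun _ => ⟨h1, h2⟩⟩
    · exact ⟨0, fun h' => absurd h' hl⟩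
  choose ξ hξ using hex
  -- the step sums
  set W : ℕ → ℕ → ℝ := fun n l => ∑ m ∈ Finset.Ioc ⌊z l * T n⌋₊ ⌊z (l + 1) * T n⌋₊, w n m with hW
  have hfl : ∀ n, Monotone fun l => ⌊z l * T n⌋₊ := fun n l l' hl =>
    Nat.floor_le_floor (mul_le_mul_of_nonneg_right (hzmono hl) (Nat.cast_nonneg _))
  have hcons : ∀ n (g : ℕ → ℝ) (k : ℕ), ∑ m ∈ Finset.Ioc ⌊z 0 * T n⌋₊ ⌊z k * T n⌋₊, g m =
      ∑ l ∈ Finset.range k, ∑ m ∈ Finset.Ioc ⌊z l * T n⌋₊ ⌊z (l + 1) * T n⌋₊, g m := by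
    intro n g k
    induction k with
    | zero => simp
    | succ k ih =>
      rw [Finset.sum_range_succ, ← ih]
      exact (Finset.sum_Ioc_consecutive g (hfl n (Nat.zero_le k)) (hfl n (Nat.le_succ k))).symm
  have hWlim : ∀ l, l < N → Tendsto (fun n => W n l) atTop (𝓝 (Γ (z (l + 1)) - Γ (z l))) := by
    intro l hl
    have h1 := (hΓ _ (hzmem (l + 1) hl)).sub (hΓ _ (hzmem l hl.le))
    have h2 : Γ (z (l + 1)) - Γ x - (Γ (z l) - Γ x) = Γ (z (l + 1)) - Γ (z l) := by ring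
    rw [h2] at h1
    refine h1.congr fun n => ?_
    have h3 := Finset.sum_Ioc_consecutive (w n) (hfl n (Nat.zero_le l)) (hfl n (Nat.le_succ l))
    simp only [hz0] at h3
    rw [← h3, add_sub_cancel_left]
  have hstep : Tendsto (fun n => ∑ l ∈ Finset.range N, φ0 (ξ l) * W n l) atTop (𝓝 (Φ y - Φ x)) := by
    have h1 : Φ y - Φ x = ∑ l ∈ Finset.range N, φ0 (ξ l) * (Γ (z (l + 1)) - Γ (z l)) := by
      rw [← hzN, ← hz0, ← Finset.sum_range_sub (fun l => Φ (z l)) N]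
      exact Finset.sum_congr rfl fun l hl => (hξ l (Finset.mem_range.1 hl)).2
    rw [h1]
    exact tendsto_finsetSum _ fun l hl => (hWlim l (Finset.mem_range.1 hl)).const_mul _
  rw [Metric.tendsto_atTop'] at hstep
  obtain ⟨n1, hn1⟩ := hstep (ε / 2) (by positivity)
  obtain ⟨n2, hn2⟩ := eventually_atTop.1 (hu η hη0)
  obtain ⟨n3, hn3⟩ := eventually_atTop.1 hMass
  obtain ⟨n4, hn4⟩ := eventually_atTop.1 hTpos
  refine ⟨max (max n1 n2) (max n3 n4), fun n hn => ?_⟩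
  have hnn1 : n1 < n := lt_of_le_of_lt (le_trans (le_max_left _ _) (le_max_left _ _)) hn
  have hnn2 : n2 ≤ n := (lt_of_le_of_lt (le_trans (le_max_right _ _) (le_max_left _ _)) hn).le
  have hnn3 : n3 ≤ n := (lt_of_le_of_lt (le_trans (le_max_left _ _) (le_max_right _ _)) hn).le
  have hnn4 : n4 ≤ n := (lt_of_le_of_lt (le_trans (le_max_right _ _) (le_max_right _ _)) hn).le
  have hTn : (0:ℝ) < T n := by exact_mod_cast hn4 n hnn4
  have hcmp : |∑ m ∈ Finset.Ioc ⌊x * T n⌋₊ ⌊y * T n⌋₊, w n m * φ n m -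
      ∑ l ∈ Finset.range N, φ0 (ξ l) * W n l| ≤ 2 * η * M := by
    have h1 := hcons n (fun m => w n m * φ n m) N
    rw [hz0, hzN] at h1
    rw [h1, ← Finset.sum_sub_distrib]
    have h2 : ∀ l ∈ Finset.range N, |∑ m ∈ Finset.Ioc ⌊z l * T n⌋₊ ⌊z (l + 1) * T n⌋₊, w n m * φ n m -
        φ0 (ξ l) * W n l| ≤ 2 * η * W n l := by
      intro l hl
      have hl' := Finset.mem_range.1 hl
      have hξl := (hξ l hl').1
      rw [hW]
      simp only
      rw [Finset.mul_sum, ← Finset.sum_sub_distrib, Finset.mul_sum]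
      refine (Finset.abs_sum_le_sum_abs _ _).trans (Finset.sum_le_sum fun m hm => ?_)
      have hm' := Finset.mem_Ioc.1 hm
      have hm1 : z l < (m:ℝ) / T n := by
        rw [lt_div_iff₀ hTn]
        exact (Nat.floor_lt (mul_nonneg (hx.trans (hzmem l hl'.le).1) hTn.le)).1 hm'.1
      have hm2 : (m:ℝ) / T n ≤ z (l + 1) := by
        rw [div_le_iff₀ hTn]
        exact (Nat.le_floor_iff (mul_nonneg (hx.trans (hzmem _ hl').1) hTn.le)).1 hm'.2
      have hmem : m ∈ Finset.Ioc ⌊x * T n⌋₊ ⌊y * T n⌋₊ := by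
        rw [Finset.mem_Ioc]
        have h3 := hfl n (Nat.zero_le l)
        have h4 := hfl n (Nat.succ_le_of_lt hl')
        simp only [hz0] at h3
        simp only [Nat.succ_eq_add_one, hzN] at h4
        exact ⟨lt_of_le_of_lt h3 hm'.1, hm'.2.trans h4⟩
      have h3 := hn2 n hnn2 m hmem
      have hmz : (m:ℝ) / T n ∈ Icc x y := ⟨(hzmem l hl'.le).1.trans hm1.le, hm2.trans (hzmem _ hl').2⟩
      have hξz : ξ l ∈ Icc x y := ⟨(hzmem l hl'.le).1.trans hξl.1, hξl.2.trans (hzmem _ hl').2⟩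
      have h4 : |φ0 (m / T n) - φ0 (ξ l)| ≤ η := by
        have h5 := hδ' _ hmz _ hξz (by
          rw [Real.dist_eq, abs_le]
          rw [hzs] at hm2
          rw [hzs] at hξl
          constructor
          · linarith [hξl.2]
          · linarith [hξl.1])
        rwa [Real.dist_eq] at h5
      have h5 : w n m * φ n m - φ0 (ξ l) * w n m = w n m * ((φ n m - φ0 (m / T n)) + (φ0 (m / T n) - φ0 (ξ l))) := by
        ring
      rw [h5, abs_mul, abs_of_nonneg (hw n m), mul_comm (2 * η)]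
      refine mul_le_mul_of_nonneg_left ((abs_add_le _ _).trans ?_) (hw n m)
      linarith
    refine (Finset.abs_sum_le_sum_abs _ _).trans ((Finset.sum_le_sum h2).trans ?_)
    rw [← Finset.mul_sum]
    refine mul_le_mul_of_nonneg_left ?_ (by positivity)
    have h3 := hcons n (w n) N
    rw [hz0, hzN] at h3
    rw [hW]
    simp only
    rw [← h3]
    exact hn3 n hnn3
  have h1 := hn1 n hnn1
  rw [Real.dist_eq] at h1 ⊢
  have h2 : 2 * η * M = ε / 2 := by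
    rw [hη]
    field_simp
    ring
  rw [h2] at hcmp
  have h3 := abs_add_le (∑ m ∈ Finset.Ioc ⌊x * T n⌋₊ ⌊y * T n⌋₊, w n m * φ n m -
      ∑ l ∈ Finset.range N, φ0 (ξ l) * W n l) (∑ l ∈ Finset.range N, φ0 (ξ l) * W n l - (Φ y - Φ x))
  rw [sub_add_sub_cancel] at h3
  linarith

end CutR3
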