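import Pool.Agent.CutR3.B
import Pool.Agent.CutR3.C

/-!
# CutR3, module D: the scaling limit of one step (helper10)

`SC W s w`: for all sequences `T → ∞`, `i / T → s` the numbers `W T i` converge to `w`.
-/

set_option autoImplicit false

namespace CutR3

open Filter Topology MeasureTheory CutLim

/-- continuous convergence (along sequences) -/
def SC (W : ℕ → ℕ → ℝ) (s w : ℝ) : Prop :=
  ∀ T i : ℕ → ℕ, Tendsto T atTop atTop → Tendsto (fun n => (i n : ℝ) / T n) atTop (𝓝 s) →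
    Tendsto (fun n => W (T n) (i n)) atTop (𝓝 w)

theorem cast_tsub (p q : ℕ) : ((p - q : ℕ) : ℝ) = max ((p : ℝ) - q) 0 := by
  rcases le_total q p with h | h
  · rw [Nat.cast_sub h, max_eq_left]
    have : (q : ℝ) ≤ p := by exact_mod_cast h
    linarith
  · rw [Nat.sub_eq_zero_of_le h, Nat.cast_zero, max_eq_right]
    have : (p : ℝ) ≤ q := by exact_mod_cast h
    linarith

theorem tendsto_tsub {T p q : ℕ → ℕ} {s z : ℝ} (hzs : z ≤ s) (hp : Tendsto (fun n => (p n : ℝ) / T n) atTop (𝓝 s))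
    (hq : Tendsto (fun n => (q n : ℝ) / T n) atTop (𝓝 z)) :
    Tendsto (fun n => ((p n - q n : ℕ) : ℝ) / T n) atTop (𝓝 (s - z)) := by
  have h1 : Tendsto (fun n => max ((p n : ℝ) / T n - (q n : ℝ) / T n) 0) atTop (𝓝 (max (s - z) 0)) :=
    (hp.sub hq).max tendsto_const_nhds
  rw [max_eq_left (by linarith)] at h1
  refine h1.congr fun n => ?_
  rw [cast_tsub]
  rcases Nat.eq_zero_or_pos (T n) with h | h
  · rw [h]
    simp
  · have hT : (0:ℝ) < T n := by exact_mod_cast h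
    rw [← sub_div]
    rcases le_total ((p n : ℝ) - q n) 0 with h2 | h2
    · rw [max_eq_right h2, max_eq_right (div_nonpos_of_nonpos_of_nonneg h2 hT.le), zero_div]
    · rw [max_eq_left h2, max_eq_left (div_nonneg h2 hT.le)]

theorem tendsto_tsub_add {T p q : ℕ → ℕ} {s z : ℝ} (hzs : z ≤ s) (hT : Tendsto T atTop atTop)
    (hp : Tendsto (fun n => (p n : ℝ) / T n) atTop (𝓝 s)) (hq : Tendsto (fun n => (q n : ℝ) / T n) atTop (𝓝 z)) :
    Tendsto (fun n => ((p n + 1 - q n : ℕ) : ℝ) / T n) atTop (𝓝 (s - z)) := by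
  have hTR : Tendsto (fun n => (T n : ℝ)) atTop atTop := tendsto_natCast_atTop_atTop.comp hT
  have h1 : Tendsto (fun n => ((p n + 1 : ℕ) : ℝ) / T n) atTop (𝓝 s) := by
    have h2 := hp.add (tendsto_inv_atTop_zero.comp hTR)
    rw [add_zero] at h2
    refine h2.congr fun n => ?_
    show (p n : ℝ) / T n + (T n : ℝ)⁻¹ = _
    push_cast
    rw [add_div, one_div]
  exact tendsto_tsub hzs h1 hq

/-- regularly varying sequences -/
theorem SC_pow {v : ℕ → ℝ} {β w s : ℝ} (hs : 0 < s) (hv : Tendsto (fun n : ℕ => (n : ℝ) ^ β * v n) atTop (𝓝 w)) :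
    SC (fun T i => (T : ℝ) ^ β * v i) s (w * s ^ (-β)) := by
  intro T i hT hi
  have hTR : Tendsto (fun n => (T n : ℝ)) atTop atTop := tendsto_natCast_atTop_atTop.comp hT
  have h1 : Tendsto i atTop atTop := by
    have h2 : Tendsto (fun n => (i n : ℝ) / T n * T n) atTop atTop := hi.pos_mul_atTop hs hTR
    have h3 : ∀ᶠ n in atTop, (i n : ℝ) / T n * T n = (i n : ℝ) := by
      filter_upwards [hT.eventually_gt_atTop 0] with n hn
      have : (T n : ℝ) ≠ 0 := by exact_mod_cast hn.ne'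
      field_simp
    exact tendsto_natCast_atTop_iff.1 (h2.congr' h3)
  have h2 := ((hv.comp h1).mul (hi.rpow_const (p := -β) (Or.inl hs.ne')))
  refine h2.congr' ?_
  filter_upwards [hT.eventually_gt_atTop 0, h1.eventually_gt_atTop 0] with n hn hn'
  have hn1 : (0:ℝ) < T n := by exact_mod_cast hn
  have hn2 : (0:ℝ) < i n := by exact_mod_cast hn'
  show (i n : ℝ) ^ β * v (i n) * ((i n : ℝ) / T n) ^ (-β) = (T n : ℝ) ^ β * v (i n)
  rw [Real.div_rpow hn2.le hn1.le, Real.rpow_neg hn2.le, Real.rpow_neg hn1.le]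
  have h3 := (Real.rpow_pos_of_pos hn2 β).ne'
  have h4 := (Real.rpow_pos_of_pos hn1 β).ne'
  field_simp

/-- sums of the step law -/
theorem sum_k (k : ℕ → ℝ) {j X Z : ℕ} (hj : j ≤ X) (hXZ : X ≤ Z) :
    ∑ m ∈ Finset.Ioc X Z, k (m - j) = KK k (X + 1 - j) - KK k (Z + 1 - j) := by
  induction Z, hXZ using Nat.le_induction with
  | base => simp
  | succ Z hZ ih =>
    rw [Finset.sum_Ioc_succ_top (by omega), ih]
    have h1 : Z + 1 + 1 - j = (Z + 1 - j) + 1 := by omega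
    rw [h1]
    unfold KK
    rw [Finset.sum_range_succ]
    ring

theorem seq_unif {x y : ℝ} {T : ℕ → ℕ} (hT : Tendsto T atTop atTop) {φ : ℕ → ℕ → ℝ} {φ0 : ℝ → ℝ} (hx : 0 ≤ x)
    (hφ : ContinuousOn φ0 (Set.Icc x y))
    (H : ∀ (σ m : ℕ → ℕ) (z : ℝ), StrictMono σ → z ∈ Set.Icc x y →
      Tendsto (fun n => (m n : ℝ) / T (σ n)) atTop (𝓝 z) → Tendsto (fun n => φ (σ n) (m n)) atTop (𝓝 (φ0 z))) :
    ∀ ε : ℝ, 0 < ε → ∀ᶠ n in atTop, ∀ m ∈ Finset.Ioc ⌊x * T n⌋₊ ⌊y * T n⌋₊, |φ n m - φ0 (m / T n)| ≤ ε := by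
  intro ε hε
  by_contra hcon
  rw [not_eventually] at hcon
  have hcon' : ∃ᶠ n in atTop, 0 < T n ∧ ∃ m ∈ Finset.Ioc ⌊x * T n⌋₊ ⌊y * T n⌋₊, ε < |φ n m - φ0 (m / T n)| := by
    refine (hcon.and_eventually (hT.eventually_gt_atTop 0)).mono fun n hn => ⟨hn.2, ?_⟩
    have h1 := hn.1
    push Not at h1
    exact h1
  obtain ⟨σ, hσ, hσ'⟩ := extraction_of_frequently_atTop hcon'
  have hpos := fun n => (hσ' n).1
  choose m hm using fun n => (hσ' n).2
  have hmem : ∀ n, (m n : ℝ) / T (σ n) ∈ Set.Icc x y := by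
    intro n
    have h1 := Finset.mem_Ioc.1 (hm n).1
    have h2 : (0:ℝ) < T (σ n) := by exact_mod_cast hpos n
    constructor
    · rw [le_div_iff₀ h2]
      exact ((Nat.floor_lt (mul_nonneg hx h2.le)).1 h1.1).le
    · rw [div_le_iff₀ h2]
      have h3 : 0 < ⌊y * T (σ n)⌋₊ := by omega
      exact (Nat.le_floor_iff (Nat.pos_of_floor_pos h3).le).1 h1.2
  obtain ⟨z, hz, ψ, hψ, hψ'⟩ := isCompact_Icc.tendsto_subseq hmem
  have h1 := H (σ ∘ ψ) (m ∘ ψ) z (hσ.comp hψ) hz hψ'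
  have h2 : Tendsto (fun n => φ0 ((m (ψ n) : ℝ) / T (σ (ψ n)))) atTop (𝓝 (φ0 z)) := by
    have h3 := hφ z hz
    exact h3.tendsto.comp (tendsto_nhdsWithin_iff.2 ⟨hψ', Eventually.of_forall fun n => hmem (ψ n)⟩)
  have h3 := (h1.sub h2).abs
  rw [sub_self, abs_zero] at h3
  have h4 := h3.eventually_lt_const hε
  obtain ⟨n, hn⟩ := h4.exists
  have h5 := (hm (ψ n)).2
  exact absurd hn (not_lt.2 h5.le)

/-- the kernel of one step -/
noncomputable def Dk (C a r s x y : ℝ) : ℝ :=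
  C * (s - r)⁻¹ * (((s - x) / (x - r)) ^ a - ((s - y) / (y - r)) ^ a)

theorem deriv_Gam {a c r z : ℝ} (hz : r < z) :
    HasDerivAt (fun z => - (c * (z - r) ^ (-a))) (c * a * (z - r) ^ (-a - 1)) z := by
  have h1 : HasDerivAt (fun z : ℝ => z - r) 1 z := (hasDerivAt_id z).sub_const r
  have h2 := (h1.rpow_const (p := -a) (Or.inl (by linarith : z - r ≠ 0))).const_mul c
  refine h2.neg.congr_deriv ?_
  ring

theorem deriv_Phi {a b c r s z : ℝ} (hz : r < z) (hs : z < s) :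
    HasDerivAt (fun z => - (b * c * (s - r)⁻¹ * ((s - z) / (z - r)) ^ a))
      (b * (s - z) ^ (a - 1) * (c * a * (z - r) ^ (-a - 1))) z := by
  have hzr : 0 < z - r := by linarith
  have hsz : 0 < s - z := by linarith
  have hsr : 0 < s - r := by linarith
  have h1 : HasDerivAt (fun z : ℝ => z - r) 1 z := (hasDerivAt_id z).sub_const r
  have h0 : HasDerivAt (fun z : ℝ => s - z) (-1) z := by
    have := (hasDerivAt_id z).const_sub s
    exact this
  have h2 := h0.div h1 hzr.ne'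
  have h3 := (h2.rpow_const (p := a) (Or.inl (div_pos hsz hzr).ne')).const_mul (b * c * (s - r)⁻¹)
  refine h3.neg.congr_deriv ?_
  show -(b * c * (s - r)⁻¹ * ((-1 * (z - r) - (s - z) * 1) / (z - r) ^ 2 * a * ((s - z) / (z - r)) ^ (a - 1))) = _
  rw [Real.div_rpow hsz.le hzr.le]
  have e1 : (z - r) ^ (-a - 1) = ((z - r) ^ (a - 1))⁻¹ * ((z - r) ^ 2)⁻¹ := by
    rw [← Real.rpow_neg hzr.le, ← Real.rpow_natCast, ← Real.rpow_neg hzr.le, ← Real.rpow_add hzr]
    congr 1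
    push_cast
    ring
  rw [e1]
  have h4 := (Real.rpow_pos_of_pos hzr (a - 1)).ne'
  field_simp
  ring

theorem mean_value {a b c r s x y : ℝ} (ha : 0 < a) (hc : 0 < c) (hr : r < x) (hy : y < s) :
    ∀ z ∈ Set.Icc x y, ∀ z' ∈ Set.Icc x y, z ≤ z' → ∃ ξ ∈ Set.Icc z z',
      (- (b * c * (s - r)⁻¹ * ((s - z') / (z' - r)) ^ a)) - (- (b * c * (s - r)⁻¹ * ((s - z) / (z - r)) ^ a)) =
      (b * (s - ξ) ^ (a - 1)) * ((- (c * (z' - r) ^ (-a))) - (- (c * (z - r) ^ (-a)))) := by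
  intro z hz z' hz' hzz
  rcases hzz.eq_or_lt with h | h
  · subst h
    exact ⟨z, ⟨le_rfl, le_rfl⟩, by ring⟩
  · have hin : ∀ t ∈ Set.Icc z z', r < t ∧ t < s := fun t ht =>
      ⟨hr.trans_le (hz.1.trans ht.1), (ht.2.trans hz'.2).trans_lt hy⟩
    obtain ⟨ξ, hξ, h1⟩ := exists_ratio_hasDerivAt_eq_ratio_slope
      (fun z => - (b * c * (s - r)⁻¹ * ((s - z) / (z - r)) ^ a))
      (fun z => b * (s - z) ^ (a - 1) * (c * a * (z - r) ^ (-a - 1))) h
      (fun t ht => (deriv_Phi (hin t ht).1 (hin t ht).2).continuousAt.continuousWithinAt)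
      (fun t ht => deriv_Phi (hin t (Set.Ioo_subset_Icc_self ht)).1 (hin t (Set.Ioo_subset_Icc_self ht)).2)
      (fun z => - (c * (z - r) ^ (-a))) (fun z => c * a * (z - r) ^ (-a - 1))
      (fun t ht => (deriv_Gam (hin t ht).1).continuousAt.continuousWithinAt)
      (fun t ht => deriv_Gam (hin t (Set.Ioo_subset_Icc_self ht)).1)
    refine ⟨ξ, Set.Ioo_subset_Icc_self hξ, ?_⟩
    have h2 : 0 < c * a * (ξ - r) ^ (-a - 1) := mul_pos (mul_pos hc ha)
      (Real.rpow_pos_of_pos (by linarith [(hin ξ (Set.Ioo_subset_Icc_self hξ)).1]) _)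
    have h4 : (- (b * c * (s - r)⁻¹ * ((s - z') / (z' - r)) ^ a) - - (b * c * (s - r)⁻¹ * ((s - z) / (z - r)) ^ a)) *
        (c * a * (ξ - r) ^ (-a - 1)) =
        ((b * (s - ξ) ^ (a - 1)) * (- (c * (z' - r) ^ (-a)) - - (c * (z - r) ^ (-a)))) *
        (c * a * (ξ - r) ^ (-a - 1)) := by
      rw [← h1]
      ring
    exact mul_right_cancel₀ h2.ne' h4

variable {u k : ℕ → ℝ} {a b c : ℝ}

/-- the limit of the kernel of one step -/
theorem kern (h : Ren u k) (ha : 0 < a) (hc : 0 < c)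
    (hu : Tendsto (fun n : ℕ => (n : ℝ) ^ (1 - a) * u n) atTop (𝓝 b))
    (hk : Tendsto (fun n : ℕ => (n : ℝ) ^ a * KK k n) atTop (𝓝 c))
    {r x y s : ℝ} (hr : 0 ≤ r) (hrx : r < x) (hxy : x ≤ y) (hys : y < s) {T j i : ℕ → ℕ}
    (hT : Tendsto T atTop atTop) (hj : Tendsto (fun n => (j n : ℝ) / T n) atTop (𝓝 r))
    (hi : Tendsto (fun n => (i n : ℝ) / T n) atTop (𝓝 s)) :
    Tendsto (fun n => (T n : ℝ) * ∑ m ∈ Finset.Ioc ⌊x * T n⌋₊ ⌊y * T n⌋₊, k (m - j n) * u (i n - m)) atTop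
      (𝓝 (Dk (b * c) a r s x y)) := by
  have hTR : Tendsto (fun n => (T n : ℝ)) atTop atTop := tendsto_natCast_atTop_atTop.comp hT
  have hx : 0 ≤ x := hr.trans hrx.le
  have hfl : ∀ z : ℝ, 0 ≤ z → Tendsto (fun n => (⌊z * T n⌋₊ : ℝ) / T n) atTop (𝓝 z) := fun z hz =>
    (tendsto_nat_floor_mul_div_atTop (R := ℝ) hz).comp hTR
  have hjX : ∀ᶠ n in atTop, j n ≤ ⌊x * T n⌋₊ := by
    filter_upwards [hj.eventually_lt_const hrx, hT.eventually_gt_atTop 0] with n hn hn'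
    have hTn : (0:ℝ) < T n := by exact_mod_cast hn'
    rw [Nat.le_floor_iff (mul_nonneg hx hTn.le)]
    exact ((div_lt_iff₀ hTn).1 hn).le
  have hΓ : ∀ z ∈ Set.Icc x y, Tendsto (fun n => ∑ m ∈ Finset.Ioc ⌊x * T n⌋₊ ⌊z * T n⌋₊, (T n : ℝ) ^ a * k (m - j n))
      atTop (𝓝 ((- (c * (z - r) ^ (-a))) - (- (c * (x - r) ^ (-a))))) := by
    intro z hz
    have h1 : ∀ t, r < t → Tendsto (fun n => (T n : ℝ) ^ a * KK k (⌊t * T n⌋₊ + 1 - j n)) atTop
        (𝓝 (c * (t - r) ^ (-a))) := by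
      intro t ht
      refine SC_pow (by linarith) hk T _ hT ?_
      exact tendsto_tsub_add ht.le hT (hfl t (hr.trans ht.le)) hj
    have h2 := (h1 x hrx).sub (h1 z (hrx.trans_le hz.1))
    have h3 : c * (x - r) ^ (-a) - c * (z - r) ^ (-a) =
        (- (c * (z - r) ^ (-a))) - (- (c * (x - r) ^ (-a))) := by ring
    rw [h3] at h2
    refine h2.congr' ?_
    filter_upwards [hjX] with n hn
    rw [← Finset.mul_sum, sum_k k hn (Nat.floor_le_floor (mul_le_mul_of_nonneg_right hz.1 (Nat.cast_nonneg _)))]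
    ring
  have hφ : ContinuousOn (fun z : ℝ => b * (s - z) ^ (a - 1)) (Set.Icc x y) := by
    refine continuousOn_const.mul (ContinuousOn.rpow_const (by fun_prop) fun z hz => Or.inl ?_)
    linarith [hz.2]
  have hunif := seq_unif (x := x) (y := y) hT (φ := fun n m => (T n : ℝ) ^ (1 - a) * u (i n - m)) hx hφ (by
    intro σ m z hσ hz hm
    have h1 : Tendsto (fun n => (i (σ n) : ℝ) / T (σ n)) atTop (𝓝 s) := hi.comp hσ.tendsto_atTop
    have h2 := SC_pow (v := u) (β := 1 - a) (w := b) (s := s - z) (by linarith [hz.2]) hu (T ∘ σ)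
      (fun n => i (σ n) - m n) (hT.comp hσ.tendsto_atTop) (tendsto_tsub (by linarith [hz.2]) h1 hm)
    rw [neg_sub] at h2
    exact h2)
  have hS := stieltjes (x := x) (y := y) hxy hx hT (w := fun n m => (T n : ℝ) ^ a * k (m - j n))
    (φ := fun n m => (T n : ℝ) ^ (1 - a) * u (i n - m)) (Γ := fun z => - (c * (z - r) ^ (-a)))
    (Φ := fun z => - (b * c * (s - r)⁻¹ * ((s - z) / (z - r)) ^ a)) (φ0 := fun z => b * (s - z) ^ (a - 1))
    (fun n m => mul_nonneg (Real.rpow_nonneg (Nat.cast_nonneg _) _) (h.kn _)) hΓ hφ hunif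
    (mean_value ha hc hrx hys)
  have hD : (- (b * c * (s - r)⁻¹ * ((s - y) / (y - r)) ^ a)) - (- (b * c * (s - r)⁻¹ * ((s - x) / (x - r)) ^ a)) =
      Dk (b * c) a r s x y := by
    unfold Dk
    ring
  rw [hD] at hS
  refine hS.congr' ?_
  filter_upwards [hT.eventually_gt_atTop 0] with n hn
  have hTn : (0:ℝ) < T n := by exact_mod_cast hn
  rw [Finset.mul_sum]
  refine Finset.sum_congr rfl fun m _ => ?_
  have e1 : (T n : ℝ) ^ a * (T n : ℝ) ^ (1 - a) = T n := by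
    rw [← Real.rpow_add hTn, show a + (1 - a) = 1 by ring, Real.rpow_one]
  calc (T n : ℝ) ^ a * k (m - j n) * ((T n : ℝ) ^ (1 - a) * u (i n - m))
      = ((T n : ℝ) ^ a * (T n : ℝ) ^ (1 - a)) * (k (m - j n) * u (i n - m)) := by ring
    _ = _ := by rw [e1]

end CutR3
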