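import Pool.Agent.CutR3.D

/-!
# CutR3, module E: the joint gap probabilities of a renewal sequence (helper10)

`rho a b c l` is the limit density of the renewal points with the gaps of the list `l` avoided (head = rightmost gap).
-/

set_option autoImplicit false

namespace CutR3

open Filter Topology MeasureTheory CutLim

variable {u k : ℕ → ℝ} {a b c : ℝ}

theorem KK_nonneg' (h : Ren u k) (n : ℕ) : 0 ≤ KK k n := by
  unfold KK
  have h1 : ∑ r ∈ Finset.range n, k r ≤ 1 := by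
    rw [← h.ks.tsum_eq]
    exact h.ks.summable.sum_le_tsum _ (fun r _ => h.kn r)
  linarith

theorem KK_anti' (h : Ren u k) {m n : ℕ} (hmn : m ≤ n) : KK k n ≤ KK k m := by
  unfold KK
  have h1 : ∑ r ∈ Finset.range m, k r ≤ ∑ r ∈ Finset.range n, k r :=
    Finset.sum_le_sum_of_subset_of_nonneg (Finset.range_subset_range.2 hmn) (fun r _ _ => h.kn r)
  linarith

theorem u_bound (h : Ren u k) (ha1 : a < 1)
    (hu : Tendsto (fun n : ℕ => (n : ℝ) ^ (1 - a) * u n) atTop (𝓝 b)) :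
    ∃ C : ℝ, 0 < C ∧ ∀ n : ℕ, u n ≤ C * ((n : ℝ) + 1) ^ (a - 1) := by
  obtain ⟨M, hM⟩ := hu.bddAbove_range
  refine ⟨max 1 ((2:ℝ) ^ (1 - a) * M), lt_max_of_lt_left one_pos, fun n => ?_⟩
  rcases Nat.eq_zero_or_pos n with rfl | hn
  · rw [h.u0, Nat.cast_zero, zero_add, Real.one_rpow, mul_one]
    exact le_max_left _ _
  · have hn' : (0:ℝ) < n := by exact_mod_cast hn
    have hn1 : (1:ℝ) ≤ n := by exact_mod_cast hn
    have h1 : (n : ℝ) ^ (1 - a) * u n ≤ M := hM ⟨n, rfl⟩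
    have h2 : ((n : ℝ) + 1) ^ (1 - a) ≤ (2:ℝ) ^ (1 - a) * (n : ℝ) ^ (1 - a) := by
      rw [← Real.mul_rpow (by norm_num) hn'.le]
      exact Real.rpow_le_rpow (by linarith) (by linarith) (by linarith)
    have h3 : ((n : ℝ) + 1) ^ (1 - a) * u n ≤ (2:ℝ) ^ (1 - a) * M := by
      refine (mul_le_mul_of_nonneg_right h2 (u_nonneg' h n)).trans ?_
      rw [mul_assoc]
      exact mul_le_mul_of_nonneg_left h1 (Real.rpow_nonneg (by norm_num) _)
    have h4 : 0 < ((n : ℝ) + 1) ^ (1 - a) := Real.rpow_pos_of_pos (by linarith) _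
    have h5 : ((n : ℝ) + 1) ^ (a - 1) = (((n : ℝ) + 1) ^ (1 - a))⁻¹ := by
      rw [← Real.rpow_neg (by linarith), neg_sub]
    rw [h5, ← div_eq_mul_inv, le_div_iff₀ h4, mul_comm]
    exact h3.trans (le_max_right _ _)

theorem KK_bound (hk : Tendsto (fun n : ℕ => (n : ℝ) ^ a * KK k n) atTop (𝓝 c)) :
    ∃ C : ℝ, 0 < C ∧ ∀ n : ℕ, 0 < n → KK k n ≤ C * (n : ℝ) ^ (-a) := by
  obtain ⟨M, hM⟩ := hk.bddAbove_range
  refine ⟨max 1 M, lt_max_of_lt_left one_pos, fun n hn => ?_⟩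
  have hn' : (0:ℝ) < n := by exact_mod_cast hn
  have h1 : (n : ℝ) ^ a * KK k n ≤ M := hM ⟨n, rfl⟩
  have h4 : 0 < (n : ℝ) ^ a := Real.rpow_pos_of_pos hn' _
  rw [Real.rpow_neg hn'.le, ← div_eq_mul_inv, le_div_iff₀ h4, mul_comm]
  exact h1.trans (le_max_right _ _)

/-- the scaled upper bound -/
theorem fw_scaled_le {C : ℝ} (h : Ren u k) (hC : ∀ n : ℕ, u n ≤ C * ((n : ℝ) + 1) ^ (a - 1)) (G : Set ℕ) {T : ℕ}
    (hT : 0 < T) (j : ℕ) : (T : ℝ) ^ (1 - a) * fw k G j ≤ C * (((j : ℝ) + 1) / T) ^ (a - 1) := by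
  have hT' : (0:ℝ) < T := by exact_mod_cast hT
  have hj : (0:ℝ) < (j : ℝ) + 1 := by positivity
  have h1 : (T : ℝ) ^ (1 - a) * fw k G j ≤ (T : ℝ) ^ (1 - a) * (C * ((j : ℝ) + 1) ^ (a - 1)) :=
    mul_le_mul_of_nonneg_left ((fw_le h G j).trans (hC j)) (Real.rpow_nonneg hT'.le _)
  refine h1.trans (le_of_eq ?_)
  rw [Real.div_rpow hj.le hT'.le, show (1 - a) = -(a - 1) by ring, Real.rpow_neg hT'.le]
  ring

/-- one step -/
theorem step (h : Ren u k) (ha : 0 < a) (ha1 : a < 1) (hc : 0 < c)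
    (hu : Tendsto (fun n : ℕ => (n : ℝ) ^ (1 - a) * u n) atTop (𝓝 b))
    (hk : Tendsto (fun n : ℕ => (n : ℝ) ^ a * KK k n) atTop (𝓝 c))
    {x y : ℝ} (hx : 0 < x) (hxy : x ≤ y) {G G' : ℕ → Set ℕ} (hG : ∀ T j : ℕ, ⌊x * (T : ℝ)⌋₊ < j → j ∉ G T)
    (hG' : ∀ T j : ℕ, j ∈ G' T ↔ j ∈ G T ∨ (⌊x * (T : ℝ)⌋₊ < j ∧ j ≤ ⌊y * (T : ℝ)⌋₊)) {ρ : ℝ → ℝ} {E : Set ℝ}
    (hE : E.Countable)
    (hρ : ∀ r, 0 < r → r < x → r ∉ E → SC (fun T i => (T : ℝ) ^ (1 - a) * fw k (G T) i) r (ρ r)) {s : ℝ}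
    (hys : y < s) (hs : SC (fun T i => (T : ℝ) ^ (1 - a) * fw k (G T) i) s (ρ s)) :
    SC (fun T i => (T : ℝ) ^ (1 - a) * fw k (G' T) i) s
      (ρ s - ∫ r in (0:ℝ)..x, ρ r * Dk (b * c) a r s x y) := by
  intro T i hT hi
  obtain ⟨Cu, hCu0, hCu⟩ := u_bound h ha1 hu
  obtain ⟨Ck, hCk0, hCk⟩ := KK_bound hk
  have hTpos : ∀ᶠ n in atTop, 0 < T n := hT.eventually_gt_atTop 0
  have hTR : Tendsto (fun n => (T n : ℝ)) atTop atTop := tendsto_natCast_atTop_atTop.comp hT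
  set δ : ℝ := (s - y) / 2 with hδ
  have hδ0 : 0 < δ := by rw [hδ]; linarith
  have hbig : ∀ᶠ n in atTop, (y + δ) * T n < i n := by
    filter_upwards [hi.eventually_const_lt (show y + δ < s by rw [hδ]; linarith), hTpos] with n hn hn'
    have hTn : (0:ℝ) < T n := by exact_mod_cast hn'
    exact (lt_div_iff₀ hTn).1 hn
  have hy : 0 < y := hx.trans_le hxy
  have hR := riemann (α := a) (x := x) (C := Cu * (Cu * δ ^ (a - 1) * Ck)) ha ha1 hx hT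
    (F := fun n j => ((T n : ℝ) ^ (1 - a) * fw k (G (T n)) j) *
      ((T n : ℝ) * ∑ m ∈ Finset.Ioc ⌊x * T n⌋₊ ⌊y * T n⌋₊, k (m - j) * u (i n - m)))
    (G := fun r => ρ r * Dk (b * c) a r s x y) (by
      filter_upwards [hbig, hTpos] with n hn hn' j hj
      have hTn : (0:ℝ) < T n := by exact_mod_cast hn'
      have h1 := fw_scaled_le h hCu (G (T n)) hn' j
      have h1' : 0 ≤ (T n : ℝ) ^ (1 - a) * fw k (G (T n)) j :=
        mul_nonneg (Real.rpow_nonneg hTn.le _) (fw_nonneg h _ _)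
      have hfl : ⌊x * (T n : ℝ)⌋₊ ≤ ⌊y * (T n : ℝ)⌋₊ :=
        Nat.floor_le_floor (mul_le_mul_of_nonneg_right hxy hTn.le)
      have hj1 : 0 < ⌊x * (T n : ℝ)⌋₊ + 1 - j := by omega
      have hcast : ((⌊x * (T n : ℝ)⌋₊ + 1 - j : ℕ) : ℝ) = (⌊x * (T n : ℝ)⌋₊ : ℝ) + 1 - j := by
        rw [Nat.cast_sub (by omega)]
        push_cast
        ring
      have h2 : ∑ m ∈ Finset.Ioc ⌊x * (T n : ℝ)⌋₊ ⌊y * (T n : ℝ)⌋₊, k (m - j) * u (i n - m) ≤
          (Cu * (δ * T n) ^ (a - 1)) * (Ck * ((⌊x * (T n : ℝ)⌋₊ : ℝ) + 1 - j) ^ (-a)) := by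
        calc ∑ m ∈ Finset.Ioc ⌊x * (T n : ℝ)⌋₊ ⌊y * (T n : ℝ)⌋₊, k (m - j) * u (i n - m)
            ≤ ∑ m ∈ Finset.Ioc ⌊x * (T n : ℝ)⌋₊ ⌊y * (T n : ℝ)⌋₊, k (m - j) * (Cu * (δ * T n) ^ (a - 1)) := by
              refine Finset.sum_le_sum fun m hm => mul_le_mul_of_nonneg_left ?_ (h.kn _)
              have hm' := (Finset.mem_Ioc.1 hm).2
              have hm1 : (m : ℝ) ≤ y * T n := (Nat.le_floor_iff (mul_nonneg hy.le hTn.le)).1 hm'
              refine (hCu _).trans (mul_le_mul_of_nonneg_left ?_ hCu0.le)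
              refine Real.rpow_le_rpow_of_nonpos (mul_pos hδ0 hTn) ?_ (by linarith)
              rw [cast_tsub]
              have h3 := le_max_left ((i n : ℝ) - m) 0
              nlinarith
          _ = (Cu * (δ * T n) ^ (a - 1)) * (KK k (⌊x * (T n : ℝ)⌋₊ + 1 - j) - KK k (⌊y * (T n : ℝ)⌋₊ + 1 - j)) := by
              rw [← Finset.sum_mul, sum_k k hj hfl, mul_comm]
          _ ≤ (Cu * (δ * T n) ^ (a - 1)) * (Ck * ((⌊x * (T n : ℝ)⌋₊ : ℝ) + 1 - j) ^ (-a)) := by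
              refine mul_le_mul_of_nonneg_left ?_ (mul_nonneg hCu0.le (Real.rpow_nonneg (by positivity) _))
              have h3 := hCk _ hj1
              rw [hcast] at h3
              have h4 := KK_nonneg' h (⌊y * (T n : ℝ)⌋₊ + 1 - j)
              linarith
      have h2' : 0 ≤ ∑ m ∈ Finset.Ioc ⌊x * (T n : ℝ)⌋₊ ⌊y * (T n : ℝ)⌋₊, k (m - j) * u (i n - m) :=
        Finset.sum_nonneg fun m _ => mul_nonneg (h.kn _) (u_nonneg' h _)
      rw [abs_of_nonneg (mul_nonneg h1' (mul_nonneg hTn.le h2'))]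
      have hpos : (0:ℝ) < (⌊x * (T n : ℝ)⌋₊ : ℝ) + 1 - j := by
        rw [← hcast]
        exact_mod_cast hj1
      have h3 : (T n : ℝ) * ((Cu * (δ * T n) ^ (a - 1)) * (Ck * ((⌊x * (T n : ℝ)⌋₊ : ℝ) + 1 - j) ^ (-a))) =
          Cu * δ ^ (a - 1) * Ck * ((((⌊x * (T n : ℝ)⌋₊ : ℝ) + 1 - j) / T n) ^ (-a)) := by
        rw [Real.mul_rpow hδ0.le hTn.le, Real.div_rpow hpos.le hTn.le, Real.rpow_neg hTn.le,
          Real.rpow_sub_one hTn.ne']
        field_simp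
      calc ((T n : ℝ) ^ (1 - a) * fw k (G (T n)) j) *
            ((T n : ℝ) * ∑ m ∈ Finset.Ioc ⌊x * (T n : ℝ)⌋₊ ⌊y * (T n : ℝ)⌋₊, k (m - j) * u (i n - m))
          ≤ (Cu * (((j : ℝ) + 1) / T n) ^ (a - 1)) *
            (Cu * δ ^ (a - 1) * Ck * ((((⌊x * (T n : ℝ)⌋₊ : ℝ) + 1 - j) / T n) ^ (-a))) := by
            refine mul_le_mul h1 ?_ (mul_nonneg hTn.le h2')
              (mul_nonneg hCu0.le (Real.rpow_nonneg (by positivity) _))
            rw [← h3]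
            exact mul_le_mul_of_nonneg_left h2 hTn.le
        _ = _ := by ring) (by
      have hEm : ∀ᵐ r : ℝ ∂(volume.restrict (Set.Ioo 0 x)), r ∉ E := by
        refine ae_restrict_of_ae ?_
        rw [ae_iff]
        simp only [not_not]
        exact hE.measure_zero _
      filter_upwards [hEm, ae_restrict_mem measurableSet_Ioo] with r hrE hr
      have hj : Tendsto (fun n => (⌊r * T n⌋₊ : ℝ) / T n) atTop (𝓝 r) :=
        (tendsto_nat_floor_mul_div_atTop (R := ℝ) hr.1.le).comp hTR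
      exact (hρ r hr.1 hr.2 hrE T _ hT hj).mul (kern h ha hc hu hk hr.1.le hr.2 hxy hys hT hj hi))
  have hL := (hs T i hT hi).sub hR
  refine hL.congr' ?_
  filter_upwards [hbig, hTpos] with n hn hn'
  have hTn : (0:ℝ) < T n := by exact_mod_cast hn'
  have hyi : ⌊y * (T n : ℝ)⌋₊ < i n := by
    rw [Nat.floor_lt (mul_nonneg hy.le hTn.le)]
    nlinarith
  rw [fw_step h (Nat.floor_le_floor (mul_le_mul_of_nonneg_right hxy hTn.le)) hyi (hG (T n)) (hG' (T n)), mul_sub]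
  congr 1
  rw [Finset.mul_sum, Finset.mul_sum]
  have e1 : ∀ m, (∑ j ∈ Finset.range (⌊x * (T n : ℝ)⌋₊ + 1), fw k (G (T n)) j * k (m - j)) * u (i n - m) =
      ∑ j ∈ Finset.range (⌊x * (T n : ℝ)⌋₊ + 1), fw k (G (T n)) j * (k (m - j) * u (i n - m)) := by
    intro m
    rw [Finset.sum_mul]
    exact Finset.sum_congr rfl fun j _ => mul_assoc _ _ _
  simp_rw [e1, Finset.mul_sum]
  rw [Finset.sum_comm]
  refine Finset.sum_congr rfl fun m _ => Finset.sum_congr rfl fun j _ => ?_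
  field_simp

end CutR3
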